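import Pool.Agent.H76.EB.Eng

/-!
# Certificate data
-/

set_option maxRecDepth 100000

namespace Pool.Agent.H76.EB.Dat

open Pool.Agent.H76.EB

def KK : ℕ := 192
def DK : ℕ := 65936704973478286276701250610700012477594042590660653632501423522061274331024687181258603323109715876894614990418513654238639537807088665354386570022021487261521505059048212934005930983486066707331706360831548349996034961592830273803633218503640421418499813228789150367676953761336131120974631879115255093275114625419649013785737918190736371343781649509955518459161010665154443072256158397882672952913789787242967616332561672311362043322379671198486177557335554304655507218502159184311363129708345001614775335046768344138728255287049224261821828201257320901158483119273175001286043534101798685046935019877878740283121119390161824525255907594514831831507244201908778160923220332299172918742135554427983644084149930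756198113251026310350596531276456307547461013087461114419878978185520534272476148652455647651771425365554347183513076893477721418547751057946585918950334872624015041901294614636894588106694075278124403433302655181677784029050218539099375793381455253284324155749181678726058281540922504564129937451478158373809555888829942858008995634673701892392660175826191904629751482111172493419251910505088531400283153212185579412261937673993917124466416490205122983536771169400931343926346972862966457903120487948275421518174161107036848909494593315718147569939251269431240502553241830473092697828110004602824725102841042799166213665134183711729152179646062190422724033860029382656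
def PM : ℕ := 47890485652059016522178841964167579972767532682518090

def ll2 : List (List ℕ) := []

def T2 : BT :=
  (.nd (.nd (.nd .lf 1 6 1
  [(6, .ofNat 192)]
  [] .lf) 2 5 1
  [(5, .ofNat 192)]
  [] .lf) 1025 4 1
  [(4, .ofNat 192)]
  [] (.nd .lf 1026 3 1
  [(3, .ofNat 192)]
  [] .lf))

def ll3 : List (List ℕ) := []

def T3 : BT :=
  (.nd (.nd (.nd (.nd .lf 3 12 1
  [(12, .ofNat 192)]
  [] .lf) 4 14 1
  [(14, .ofNat 192)]
  [] .lf) 5 15 1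
  [(15, .ofNat 192)]
  [] (.nd (.nd .lf 6 16 1
  [(16, .ofNat 192)]
  [] .lf) 1027 8 1
  [(8, .ofNat 192)]
  [] .lf)) 1028 9 1
  [(9, .ofNat 192)]
  [] (.nd (.nd (.nd .lf 1029 11 1
  [(11, .ofNat 192)]
  [] .lf) 1030 13 1
  [(13, .ofNat 192)]
  [] .lf) 2052 7 1
  [(7, .ofNat 192)]
  [] (.nd .lf 2054 10 1
  [(10, .ofNat 192)]
  [] .lf)))

def ll4 : List (List ℕ) := [[1, 2, 1, 1], [1, 2, 0, 1], [1, 1, 0, 2], [0, 1, 1, 2], [1, 1, 0, 1], [0, 2, 0, 1], [0, 1, 0, 2], [0, 1, 0, 1]]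

def T4 : BT :=
  (.nd (.nd (.nd (.nd (.nd .lf 7 29 36864
  [(22, .negSucc 383), (23, .negSucc 191), (24, .ofNat 384), (25, .negSucc 191), (26, .ofNat 384)]
  [.ofNat 0, .ofNat 0, .ofNat 1, .ofNat 2] .lf) 8 30 36864
  [(22, .negSucc 191), (25, .negSucc 191), (26, .ofNat 192), (27, .ofNat 192)]
  [.ofNat 0, .ofNat 1] (.nd .lf 9 33 1
  [(33, .ofNat 192)]
  [] .lf)) 10 38 1
  [(38, .ofNat 192)]
  [] (.nd (.nd .lf 11 39 110592
  [(36, .ofNat 192), (37, .ofNat 192), (38, .negSucc 191)]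
  [.ofNat 0, .ofNat 0, .ofNat 0, .ofNat 0, .ofNat 0, .negSucc 0, .negSucc 0] .lf) 12 40 110592
  [(35, .negSucc 191), (37, .ofNat 192), (38, .negSucc 191)]
  [.ofNat 0, .ofNat 0, .ofNat 0, .ofNat 0, .ofNat 0, .ofNat 1, .negSucc 1] (.nd .lf 13 43 1
  [(43, .ofNat 192)]
  [] .lf))) 14 44 36864
  [(41, .ofNat 192), (42, .ofNat 192), (43, .ofNat 192)]
  [.ofNat 0, .ofNat 0, .ofNat 0, .ofNat 0, .ofNat 0, .ofNat 0, .ofNat 0, .negSucc 0] (.nd (.nd (.nd .lf 16 46 1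
  [(46, .ofNat 192)]
  [] .lf) 1031 19 36864
  [(17, .ofNat 192), (18, .negSucc 191)]
  [.negSucc 0] (.nd .lf 1032 20 1
  [(20, .ofNat 192)]
  [] .lf)) 1033 21 1
  [(21, .ofNat 192)]
  [] (.nd (.nd .lf 1034 26 1
  [(26, .ofNat 192)]
  [] .lf) 1035 27 1
  [(27, .ofNat 192)]
  [] .lf))) 1036 28 36864
  [(22, .ofNat 192), (23, .ofNat 192), (24, .negSucc 191), (25, .ofNat 192), (26, .negSucc 383), (27, .negSucc 191)]
  [.ofNat 0, .ofNat 0, .negSucc 0, .negSucc 0] (.nd (.nd (.nd (.nd .lf 1037 32 1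
  [(32, .ofNat 192)]
  [] .lf) 1038 34 36864
  [(31, .ofNat 192), (33, .negSucc 191)]
  [.ofNat 0, .ofNat 0, .ofNat 0, .ofNat 0, .negSucc 0] (.nd .lf 1039 37 1
  [(37, .ofNat 192)]
  [] .lf)) 1040 42 1
  [(42, .ofNat 192)]
  [] (.nd (.nd .lf 2057 18 1
  [(18, .ofNat 192)]
  [] .lf) 2061 24 1
  [(24, .ofNat 192)]
  [] (.nd .lf 2062 25 1
  [(25, .ofNat 192)]
  [] .lf))) 2064 36 1
  [(36, .ofNat 192)]
  [] (.nd (.nd (.nd .lf 3076 17 1
  [(17, .ofNat 192)]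
  [] .lf) 3078 22 1
  [(22, .ofNat 192)]
  [] (.nd .lf 4101 23 1
  [(23, .ofNat 192)]
  [] .lf)) 4102 31 1
  [(31, .ofNat 192)]
  [] (.nd (.nd .lf 5126 35 1
  [(35, .ofNat 192)]
  [] .lf) 6150 41 1
  [(41, .ofNat 192)]
  [] .lf))))

def ll5 : List (List ℕ) := [[2, 4, 0, 1], [2, 6, 1, 1], [1, 2, 1, 6], [1, 1, 2, 6], [1, 1, 1, 5], [1, 3, 0, 1], [1, 4, 0, 2], [0, 1, 1, 3], [0, 4, 1, 2], [1, 1, 1, 6], [1, 1, 0, 4], [0, 4, 1, 1], [2, 6, 0, 1], [1, 2, 0, 6], [1, 1, 0, 5], [1, 5, 0, 1], [1, 6, 0, 2], [0, 2, 1, 6], [0, 1, 2, 6], [0, 1, 1, 5], [0, 4, 0, 2], [1, 1, 0, 6], [1, 6, 0, 1], [0, 1, 1, 6], [0, 4, 0, 1], [0, 1, 0, 6], [0, 6, 0, 1]]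

def T5 : BT :=
  (.nd (.nd (.nd (.nd (.nd (.nd .lf 17 71 36864
  [(55, .ofNat 192), (56, .ofNat 192), (57, .negSucc 383), (58, .ofNat 192), (59, .negSucc 383), (60, .ofNat 192), (62, .ofNat 192)]
  [.ofNat 1, .ofNat 0, .ofNat 0, .ofNat 0, .ofNat 1, .ofNat 0, .negSucc 0, .ofNat 0, .ofNat 1] .lf) 18 72 110592
  [(57, .negSucc 191), (58, .ofNat 192), (59, .negSucc 191), (60, .ofNat 192), (62, .ofNat 192), (64, .negSucc 191)]
  [.ofNat 2, .ofNat 0, .ofNat 2, .negSucc 0, .ofNat 2, .ofNat 0, .negSucc 0, .ofNat 2] (.nd .lf 20 73 221184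
  [(55, .negSucc 95), (56, .ofNat 192), (57, .ofNat 96), (58, .ofNat 96), (59, .negSucc 95), (60, .negSucc 191), (62, .negSucc 95), (63, .negSucc 191), (64, .ofNat 192), (70, .negSucc 191)]
  [.ofNat 1, .ofNat 3, .negSucc 4, .ofNat 4, .negSucc 1, .negSucc 5, .negSucc 4, .negSucc 4, .ofNat 3] .lf)) 21 80 147456
  [(74, .negSucc 191), (75, .ofNat 96), (79, .negSucc 191)]
  [.ofNat 0, .ofNat 0, .ofNat 0, .ofNat 0, .ofNat 0, .ofNat 0, .ofNat 0, .ofNat 0, .ofNat 0, .ofNat 0, .negSucc 0, .ofNat 2] (.nd (.nd .lf 22 95 36864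
  [(81, .ofNat 192), (83, .negSucc 191), (86, .ofNat 192), (87, .negSucc 191), (88, .negSucc 191), (91, .ofNat 192)]
  [.ofNat 0, .ofNat 0, .ofNat 0, .ofNat 0, .ofNat 0, .ofNat 0, .ofNat 0, .ofNat 0, .ofNat 0, .ofNat 0, .ofNat 0, .ofNat 0, .ofNat 0, .negSucc 0, .ofNat 0, .ofNat 0, .ofNat 0, .ofNat 1, .negSucc 0] .lf) 23 96 36864
  [(82, .ofNat 192), (83, .negSucc 383), (84, .ofNat 192), (86, .ofNat 384), (91, .negSucc 383)]
  [.ofNat 0, .ofNat 0, .ofNat 0, .ofNat 0, .ofNat 0, .ofNat 0, .ofNat 0, .ofNat 0, .ofNat 0, .ofNat 0, .ofNat 0, .ofNat 0, .ofNat 0, .ofNat 0, .negSucc 0, .ofNat 0, .ofNat 0, .ofNat 0, .ofNat 0, .negSucc 1] (.nd .lf 24 97 110592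
  [(85, .ofNat 192), (87, .negSucc 191), (89, .ofNat 192), (91, .ofNat 192)]
  [.ofNat 0, .ofNat 0, .ofNat 0, .ofNat 0, .ofNat 0, .ofNat 0, .ofNat 0, .ofNat 0, .ofNat 0, .ofNat 0, .ofNat 0, .ofNat 0, .negSucc 1, .ofNat 0, .ofNat 0, .ofNat 0, .negSucc 0, .negSucc 0, .negSucc 0] .lf))) 25 98 110592
  [(83, .ofNat 384), (84, .negSucc 191), (86, .negSucc 383), (88, .ofNat 192), (89, .ofNat 192), (90, .ofNat 192), (91, .ofNat 384)]
  [.ofNat 0, .ofNat 0, .ofNat 0, .ofNat 0, .ofNat 0, .ofNat 0, .ofNat 0, .ofNat 0, .ofNat 0, .ofNat 0, .ofNat 0, .ofNat 0, .ofNat 0, .ofNat 0, .ofNat 2, .ofNat 0, .ofNat 0, .negSucc 1, .ofNat 0, .ofNat 4, .negSucc 0] (.nd (.nd (.nd .lf 26 99 110592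
  [(81, .ofNat 192), (85, .negSucc 191), (90, .ofNat 192), (91, .ofNat 192)]
  [.ofNat 0, .ofNat 0, .ofNat 0, .ofNat 0, .ofNat 0, .ofNat 0, .ofNat 0, .ofNat 0, .ofNat 0, .ofNat 0, .ofNat 0, .ofNat 0, .ofNat 2, .negSucc 2, .ofNat 0, .ofNat 0, .ofNat 1, .ofNat 1, .negSucc 1] .lf) 27 100 221184
  [(82, .ofNat 96), (84, .negSucc 95), (85, .ofNat 192), (89, .ofNat 96), (90, .negSucc 95)]
  [.ofNat 0, .ofNat 0, .ofNat 0, .ofNat 0, .ofNat 0, .ofNat 0, .ofNat 0, .ofNat 0, .ofNat 0, .ofNat 0, .ofNat 0, .ofNat 0, .negSucc 1, .ofNat 0, .negSucc 2, .ofNat 6, .ofNat 2, .negSucc 0, .negSucc 0, .negSucc 2] (.nd .lf 31 107 36864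
  [(101, .ofNat 192), (103, .ofNat 192), (104, .ofNat 384)]
  [.ofNat 0, .ofNat 0, .ofNat 0, .ofNat 0, .ofNat 0, .ofNat 0, .ofNat 0, .ofNat 0, .ofNat 0, .ofNat 0, .ofNat 0, .ofNat 0, .ofNat 0, .ofNat 0, .ofNat 0, .ofNat 0, .ofNat 0, .ofNat 0, .ofNat 0, .ofNat 0, .ofNat 0, .negSucc 0, .ofNat 0, .negSucc 1] .lf)) 32 108 36864
  [(102, .negSucc 191), (103, .negSucc 191), (104, .negSucc 191), (105, .ofNat 192)]
  [.ofNat 0, .ofNat 0, .ofNat 0, .ofNat 0, .ofNat 0, .ofNat 0, .ofNat 0, .ofNat 0, .ofNat 0, .ofNat 0, .ofNat 0, .ofNat 0, .ofNat 0, .ofNat 0, .ofNat 0, .ofNat 0, .ofNat 0, .ofNat 0, .ofNat 0, .ofNat 0, .ofNat 0, .ofNat 0, .negSucc 0] (.nd (.nd .lf 33 109 110592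
  [(103, .ofNat 192), (104, .ofNat 192)]
  [.ofNat 0, .ofNat 0, .ofNat 0, .ofNat 0, .ofNat 0, .ofNat 0, .ofNat 0, .ofNat 0, .ofNat 0, .ofNat 0, .ofNat 0, .ofNat 0, .ofNat 0, .ofNat 0, .ofNat 0, .ofNat 0, .ofNat 0, .ofNat 0, .ofNat 0, .ofNat 0, .ofNat 0, .negSucc 1, .ofNat 0, .negSucc 4, .ofNat 1] .lf) 41 120 1
  [(120, .ofNat 192)]
  [] (.nd .lf 42 121 110592
  [(118, .negSucc 191), (119, .ofNat 192), (120, .ofNat 192)]
  [.ofNat 0, .ofNat 0, .ofNat 0, .ofNat 0, .ofNat 0, .ofNat 0, .ofNat 0, .ofNat 0, .ofNat 0, .ofNat 0, .ofNat 0, .ofNat 0, .ofNat 0, .ofNat 0, .ofNat 0, .ofNat 0, .ofNat 0, .ofNat 0, .ofNat 0, .ofNat 0, .ofNat 0, .ofNat 0, .ofNat 0, .ofNat 0, .ofNat 0, .negSucc 0, .ofNat 1] .lf)))) 43 122 110592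
  [(118, .ofNat 192), (119, .ofNat 192), (120, .ofNat 192)]
  [.ofNat 0, .ofNat 0, .ofNat 0, .ofNat 0, .ofNat 0, .ofNat 0, .ofNat 0, .ofNat 0, .ofNat 0, .ofNat 0, .ofNat 0, .ofNat 0, .ofNat 0, .ofNat 0, .ofNat 0, .ofNat 0, .ofNat 0, .ofNat 0, .ofNat 0, .ofNat 0, .ofNat 0, .ofNat 0, .ofNat 0, .ofNat 0, .ofNat 0, .negSucc 1, .negSucc 0] (.nd (.nd (.nd (.nd .lf 1046 65 73728
  [(55, .negSucc 95), (57, .ofNat 96), (58, .negSucc 95), (59, .ofNat 96), (62, .negSucc 95)]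
  [.negSucc 0, .ofNat 0, .ofNat 1, .negSucc 0, .ofNat 0, .ofNat 0, .ofNat 1, .ofNat 1, .negSucc 0] .lf) 1047 66 36864
  [(57, .ofNat 192), (59, .ofNat 192)]
  [.ofNat 0, .ofNat 0, .ofNat 0, .ofNat 0, .negSucc 0] (.nd .lf 1048 67 73728
  [(54, .ofNat 192), (56, .ofNat 96), (60, .negSucc 95), (62, .ofNat 96), (63, .negSucc 191)]
  [.ofNat 0, .ofNat 1, .negSucc 1] .lf)) 1049 68 110592
  [(55, .ofNat 192), (56, .ofNat 192), (57, .negSucc 191), (58, .ofNat 192), (59, .negSucc 383), (62, .ofNat 192), (64, .ofNat 192)]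
  [.ofNat 2, .ofNat 0, .negSucc 3, .ofNat 2, .ofNat 2, .ofNat 0, .negSucc 3, .negSucc 3, .ofNat 3] (.nd (.nd .lf 1050 69 73728
  [(54, .negSucc 191), (55, .ofNat 96), (57, .negSucc 95), (58, .ofNat 96), (59, .negSucc 95), (60, .ofNat 192), (62, .ofNat 96), (63, .ofNat 192)]
  [.ofNat 1, .negSucc 0, .ofNat 1, .ofNat 0, .ofNat 0, .ofNat 0, .negSucc 0, .negSucc 0, .ofNat 1] .lf) 1051 70 1
  [(70, .ofNat 192)]
  [] (.nd .lf 1055 77 147456
  [(75, .ofNat 96)]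
  [.ofNat 0, .ofNat 0, .ofNat 0, .ofNat 0, .ofNat 0, .ofNat 0, .ofNat 0, .ofNat 0, .ofNat 0, .ofNat 0, .negSucc 0] .lf))) 1056 78 1
  [(78, .ofNat 192)]
  [] (.nd (.nd (.nd .lf 1057 79 1
  [(79, .ofNat 192)]
  [] .lf) 1059 91 1
  [(91, .ofNat 192)]
  [] (.nd .lf 1060 92 110592
  [(81, .ofNat 192), (83, .negSucc 191), (85, .negSucc 191), (87, .negSucc 191), (88, .negSucc 191), (90, .ofNat 192), (91, .ofNat 192)]
  [.ofNat 0, .ofNat 0, .ofNat 0, .ofNat 0, .ofNat 0, .ofNat 0, .ofNat 0, .ofNat 0, .ofNat 0, .ofNat 0, .ofNat 0, .ofNat 0, .ofNat 1, .negSucc 2, .ofNat 0, .ofNat 0, .negSucc 0, .ofNat 2, .negSucc 0] .lf)) 1061 93 221184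
  [(82, .ofNat 96), (84, .ofNat 96), (85, .ofNat 192), (86, .ofNat 192), (89, .ofNat 96), (90, .negSucc 95), (91, .negSucc 191)]
  [.ofNat 0, .ofNat 0, .ofNat 0, .ofNat 0, .ofNat 0, .ofNat 0, .ofNat 0, .ofNat 0, .ofNat 0, .ofNat 0, .ofNat 0, .ofNat 0, .negSucc 1, .ofNat 0, .negSucc 2, .ofNat 0, .ofNat 2, .negSucc 0, .negSucc 0, .negSucc 2] (.nd (.nd .lf 1062 94 110592
  [(81, .ofNat 192), (85, .ofNat 192), (86, .ofNat 192), (87, .negSucc 191), (88, .negSucc 191), (89, .ofNat 192), (91, .ofNat 192)]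
  [.ofNat 0, .ofNat 0, .ofNat 0, .ofNat 0, .ofNat 0, .ofNat 0, .ofNat 0, .ofNat 0, .ofNat 0, .ofNat 0, .ofNat 0, .ofNat 0, .negSucc 0, .negSucc 2, .ofNat 0, .ofNat 0, .ofNat 1, .ofNat 1, .negSucc 1] .lf) 1065 104 1
  [(104, .ofNat 192)]
  [] .lf)))) 1066 105 1
  [(105, .ofNat 192)]
  [] (.nd (.nd (.nd (.nd (.nd .lf 1067 106 36864
  [(101, .ofNat 192), (103, .ofNat 192), (104, .ofNat 384), (105, .negSucc 191)]
  [.ofNat 0, .ofNat 0, .ofNat 0, .ofNat 0, .ofNat 0, .ofNat 0, .ofNat 0, .ofNat 0, .ofNat 0, .ofNat 0, .ofNat 0, .ofNat 0, .ofNat 0, .ofNat 0, .ofNat 0, .ofNat 0, .ofNat 0, .ofNat 0, .ofNat 0, .ofNat 0, .ofNat 0, .negSucc 0, .ofNat 0, .negSucc 0] .lf) 1070 119 1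
  [(119, .ofNat 192)]
  [] (.nd .lf 2079 62 1
  [(62, .ofNat 192)]
  [] .lf)) 2080 63 1
  [(63, .ofNat 192)]
  [] (.nd (.nd .lf 2081 64 1
  [(64, .ofNat 192)]
  [] .lf) 2089 88 1
  [(88, .ofNat 192)]
  [] (.nd .lf 2090 89 1
  [(89, .ofNat 192)]
  [] .lf))) 2091 90 1
  [(90, .ofNat 192)]
  [] (.nd (.nd (.nd .lf 3085 54 1
  [(54, .ofNat 192)]
  [] .lf) 3086 55 1
  [(55, .ofNat 192)]
  [] (.nd .lf 3088 81 1
  [(81, .ofNat 192)]
  [] .lf)) 4106 56 1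
  [(56, .ofNat 192)]
  [] (.nd (.nd .lf 4107 57 1
  [(57, .ofNat 192)]
  [] .lf) 4108 58 1
  [(58, .ofNat 192)]
  [] (.nd .lf 4109 74 1
  [(74, .ofNat 192)]
  [] .lf)))) 4110 75 1
  [(75, .ofNat 192)]
  [] (.nd (.nd (.nd (.nd .lf 4111 82 1
  [(82, .ofNat 192)]
  [] .lf) 4112 101 1
  [(101, .ofNat 192)]
  [] (.nd .lf 5129 59 1
  [(59, .ofNat 192)]
  [] .lf)) 5133 83 1
  [(83, .ofNat 192)]
  [] (.nd (.nd .lf 5134 84 1
  [(84, .ofNat 192)]
  [] .lf) 6151 60 1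
  [(60, .ofNat 192)]
  [] (.nd .lf 6152 61 73728
  [(54, .ofNat 192), (55, .negSucc 95), (56, .negSucc 95), (57, .ofNat 96), (58, .negSucc 95), (59, .ofNat 96), (60, .negSucc 95)]
  [.negSucc 0, .ofNat 0, .negSucc 0, .ofNat 0, .ofNat 0, .ofNat 0, .ofNat 1, .ofNat 1, .negSucc 0] .lf))) 6153 76 147456
  [(74, .ofNat 192), (75, .negSucc 95)]
  [.ofNat 0, .ofNat 0, .ofNat 0, .ofNat 0, .ofNat 0, .ofNat 0, .ofNat 0, .ofNat 0, .ofNat 0, .negSucc 3, .ofNat 1] (.nd (.nd (.nd .lf 6154 85 1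
  [(85, .ofNat 192)]
  [] .lf) 6155 86 1
  [(86, .ofNat 192)]
  [] (.nd .lf 6156 87 1
  [(87, .ofNat 192)]
  [] .lf)) 6157 102 1
  [(102, .ofNat 192)]
  [] (.nd (.nd .lf 6158 103 1
  [(103, .ofNat 192)]
  [] .lf) 6160 118 1
  [(118, .ofNat 192)]
  [] .lf)))))

def ll6 : List (List ℕ) := [[2, 6, 1, 6], [2, 6, 0, 4], [2, 13, 0, 1], [2, 16, 1, 1], [1, 2, 0, 14], [1, 1, 2, 16], [1, 1, 1, 15], [1, 1, 0, 10], [1, 1, 0, 11], [1, 1, 0, 12], [1, 1, 5, 6], [1, 5, 1, 6], [1, 6, 2, 6], [1, 6, 1, 5], [1, 6, 0, 3], [1, 11, 0, 1], [1, 14, 0, 2], [1, 16, 1, 2], [4, 6, 0, 2], [0, 2, 1, 13], [0, 2, 1, 14], [0, 2, 0, 9], [0, 1, 1, 11], [0, 1, 1, 12], [0, 1, 3, 6], [0, 1, 0, 7], [0, 4, 2, 6], [0, 4, 1, 5], [0, 9, 0, 2], [0, 13, 1, 2], [6, 6, 1, 2], [1, 1, 1, 16], [1, 1, 0, 14], [1, 1, 6, 6], [1, 6, 1, 6], [1, 6, 0, 4], [1, 13, 0, 1], [4, 6, 0, 1], [0, 1, 4, 6], [0, 4, 1, 6], [0, 4, 0, 4], [0, 9, 0,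 1]]

def T6 : BT :=
  (.nd (.nd (.nd (.nd (.nd (.nd (.nd .lf 54 164 3538944
  [(123, .negSucc 29), (124, .negSucc 11), (125, .negSucc 53), (126, .ofNat 132), (127, .negSucc 59), (128, .ofNat 120), (130, .ofNat 144), (131, .ofNat 144), (132, .ofNat 48), (133, .ofNat 30), (134, .negSucc 65), (136, .negSucc 29), (137, .ofNat 24), (138, .ofNat 24), (139, .ofNat 30), (140, .negSucc 59), (148, .ofNat 96)]
  [.ofNat 12, .ofNat 7, .ofNat 12, .negSucc 32, .negSucc 23, .negSucc 41, .negSucc 19, .ofNat 51, .ofNat 43, .negSucc 2, .negSucc 14, .ofNat 12, .ofNat 0, .ofNat 11, .ofNat 6, .ofNat 0, .ofNat 33, .ofNat 48, .negSucc 10, .ofNat 19, .ofNat 20, .negSucc 11, .ofNat 24, .ofNat 12, .ofNat 51, .negSucc 11, .negSucc 1, .negSucc 9, .ofNat 11, .ofNat 6, .negSucc 2] .lf) 55 165 442368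
  [(123, .negSucc 143), (124, .ofNat 96), (125, .negSucc 143), (126, .ofNat 96), (127, .negSucc 287), (128, .ofNat 192), (130, .ofNat 192), (131, .ofNat 192), (132, .ofNat 192), (133, .negSucc 47), (134, .negSucc 239), (136, .ofNat 48), (137, .ofNat 192), (139, .negSucc 47), (140, .ofNat 96), (148, .ofNat 192)]
  [.negSucc 3, .ofNat 9, .ofNat 4, .negSucc 2, .negSucc 11, .negSucc 17, .negSucc 11, .ofNat 17, .ofNat 21, .ofNat 3, .ofNat 11, .negSucc 11, .ofNat 0, .negSucc 14, .ofNat 2, .ofNat 0, .ofNat 15, .ofNat 0, .negSucc 12, .ofNat 9, .ofNat 12, .negSucc 3, .ofNat 0, .ofNat 12, .ofNat 1, .negSucc 11, .ofNat 2, .negSucc 5, .ofNat 5, .ofNat 2, .negSucc 0] .lf) 56 166 3538944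
  [(123, .negSucc 173), (124, .negSucc 11), (125, .negSucc 149), (126, .ofNat 36), (127, .negSucc 203), (128, .ofNat 120), (129, .negSucc 95), (133, .ofNat 174), (134, .negSucc 17), (136, .ofNat 18), (137, .ofNat 24), (138, .ofNat 24), (139, .ofNat 30), (140, .negSucc 59), (148, .ofNat 192)]
  [.ofNat 12, .ofNat 3, .ofNat 12, .negSucc 8, .ofNat 0, .negSucc 77, .negSucc 91, .ofNat 87, .ofNat 79, .ofNat 9, .negSucc 66, .ofNat 60, .ofNat 0, .ofNat 67, .ofNat 6, .ofNat 0, .ofNat 21, .ofNat 0, .negSucc 2, .negSucc 36, .ofNat 8, .negSucc 3, .ofNat 72, .ofNat 12, .ofNat 3, .ofNat 0, .negSucc 5, .ofNat 2, .ofNat 7, .ofNat 6, .negSucc 2] (.nd .lf 57 167 3538944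
  [(123, .negSucc 17), (124, .ofNat 12), (125, .negSucc 41), (126, .negSucc 35), (127, .negSucc 179), (128, .negSucc 119), (129, .negSucc 95), (133, .negSucc 173), (134, .ofNat 18), (135, .ofNat 192), (136, .negSucc 17), (137, .negSucc 23), (138, .negSucc 23), (139, .negSucc 29), (140, .ofNat 60)]
  [.negSucc 11, .negSucc 2, .negSucc 11, .ofNat 9, .ofNat 0, .negSucc 17, .negSucc 99, .ofNat 9, .ofNat 17, .negSucc 8, .ofNat 67, .negSucc 59, .ofNat 0, .negSucc 66, .negSucc 5, .ofNat 0, .negSucc 20, .ofNat 0, .ofNat 3, .ofNat 37, .negSucc 7, .ofNat 4, .negSucc 71, .negSucc 11, .negSucc 2, .ofNat 0, .ofNat 6, .negSucc 1, .negSucc 6, .negSucc 5, .ofNat 3] .lf)) 58 168 442368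
  [(123, .ofNat 144), (124, .negSucc 95), (125, .ofNat 144), (126, .negSucc 95), (127, .ofNat 288), (128, .negSucc 191), (133, .negSucc 143), (134, .ofNat 240), (135, .ofNat 192), (136, .negSucc 239), (137, .negSucc 191), (139, .ofNat 48), (140, .negSucc 95), (148, .negSucc 191)]
  [.ofNat 4, .negSucc 4, .negSucc 3, .ofNat 3, .ofNat 0, .ofNat 6, .ofNat 12, .negSucc 4, .negSucc 8, .negSucc 2, .negSucc 6, .ofNat 12, .ofNat 0, .ofNat 7, .negSucc 1, .ofNat 0, .negSucc 2, .ofNat 0, .ofNat 5, .negSucc 0, .ofNat 0, .negSucc 3, .ofNat 0, .negSucc 11, .negSucc 0, .ofNat 0, .ofNat 2, .negSucc 5, .negSucc 0, .negSucc 1, .ofNat 1] (.nd (.nd .lf 59 169 3538944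
  [(123, .ofNat 30), (124, .negSucc 83), (125, .negSucc 89), (126, .ofNat 60), (127, .ofNat 300), (128, .ofNat 264), (133, .ofNat 162), (134, .ofNat 162), (136, .negSucc 161), (137, .negSucc 23), (138, .negSucc 119), (139, .ofNat 114), (140, .negSucc 227)]
  [.ofNat 52, .negSucc 10, .ofNat 20, .negSucc 14, .ofNat 0, .ofNat 30, .ofNat 124, .ofNat 1, .negSucc 70, .ofNat 15, .negSucc 100, .ofNat 36, .ofNat 0, .ofNat 101, .ofNat 10, .ofNat 0, .negSucc 44, .ofNat 0, .ofNat 11, .ofNat 13, .ofNat 8, .ofNat 4, .ofNat 24, .negSucc 11, .ofNat 5, .ofNat 0, .negSucc 9, .negSucc 33, .negSucc 14, .ofNat 10, .negSucc 4] .lf) 60 170 1769472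
  [(123, .negSucc 59), (124, .negSucc 23), (125, .negSucc 107), (126, .negSucc 119), (127, .negSucc 23), (128, .ofNat 432), (129, .negSucc 95), (130, .negSucc 191), (131, .negSucc 191), (132, .ofNat 192), (133, .ofNat 60), (134, .ofNat 60), (136, .ofNat 132), (137, .negSucc 143), (138, .negSucc 47), (139, .negSucc 35), (140, .negSucc 311), (144, .ofNat 384), (148, .negSucc 191)]
  [.ofNat 12, .ofNat 11, .ofNat 12, .ofNat 15, .ofNat 0, .ofNat 18, .negSucc 11, .negSucc 8, .ofNat 15, .ofNat 9, .ofNat 5, .ofNat 12, .ofNat 0, .ofNat 59, .negSucc 41, .ofNat 0, .negSucc 2, .negSucc 47, .ofNat 5, .ofNat 19, .ofNat 0, .negSucc 3, .ofNat 24, .ofNat 12, .negSucc 20, .ofNat 0, .negSucc 21, .negSucc 5, .negSucc 0, .ofNat 6, .negSucc 26] (.nd .lf 62 171 3538944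
  [(123, .ofNat 114), (124, .negSucc 11), (125, .negSucc 149), (126, .ofNat 228), (127, .ofNat 180), (128, .negSucc 71), (130, .ofNat 192), (131, .ofNat 192), (132, .negSucc 191), (133, .ofNat 78), (134, .ofNat 78), (136, .negSucc 77), (137, .ofNat 216), (138, .negSucc 71), (139, .ofNat 126), (140, .ofNat 132), (144, .negSucc 383), (148, .ofNat 192)]
  [.ofNat 12, .ofNat 19, .ofNat 12, .negSucc 56, .ofNat 0, .ofNat 18, .ofNat 68, .negSucc 8, .negSucc 48, .ofNat 9, .negSucc 18, .negSucc 35, .ofNat 0, .negSucc 44, .ofNat 102, .ofNat 0, .negSucc 26, .ofNat 96, .ofNat 13, .negSucc 20, .negSucc 7, .negSucc 3, .negSucc 23, .ofNat 12, .ofNat 51, .ofNat 0, .negSucc 37, .negSucc 13, .negSucc 8, .ofNat 6, .ofNat 45] .lf))) 63 172 7077888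
  [(123, .ofNat 69), (124, .ofNat 18), (125, .negSucc 62), (126, .ofNat 138), (127, .negSucc 77), (128, .negSucc 179), (129, .ofNat 48), (130, .ofNat 192), (131, .ofNat 192), (132, .negSucc 191), (133, .ofNat 27), (134, .ofNat 27), (136, .negSucc 26), (137, .negSucc 35), (138, .ofNat 60), (139, .ofNat 51), (140, .ofNat 90), (144, .negSucc 191), (148, .ofNat 192), (152, .negSucc 191)]
  [.ofNat 92, .negSucc 8, .ofNat 28, .negSucc 68, .ofNat 0, .negSucc 53, .negSucc 43, .ofNat 59, .ofNat 19, .negSucc 26, .negSucc 22, .ofNat 12, .ofNat 0, .negSucc 40, .ofNat 110, .ofNat 0, .ofNat 33, .ofNat 192, .ofNat 41, .negSucc 48, .ofNat 8, .ofNat 12, .negSucc 23, .negSucc 35, .ofNat 151, .ofNat 0, .negSucc 45, .ofNat 26, .ofNat 11, .negSucc 81, .ofNat 41] (.nd (.nd (.nd (.nd .lf 64 173 7077888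
  [(123, .ofNat 99), (124, .negSucc 65), (125, .negSucc 56), (126, .ofNat 6), (127, .ofNat 414), (128, .ofNat 84), (129, .ofNat 48), (133, .ofNat 93), (134, .ofNat 189), (136, .negSucc 92), (137, .negSucc 59), (138, .negSucc 59), (139, .ofNat 69), (140, .negSucc 137), (148, .negSucc 95)]
  [.ofNat 68, .ofNat 1, .ofNat 4, .negSucc 2, .ofNat 0, .ofNat 102, .ofNat 204, .negSucc 66, .negSucc 122, .ofNat 3, .negSucc 128, .ofNat 84, .ofNat 0, .ofNat 193, .ofNat 2, .ofNat 0, .negSucc 56, .ofNat 0, .ofNat 63, .negSucc 54, .ofNat 24, .negSucc 43, .ofNat 24, .negSucc 59, .ofNat 1, .ofNat 0, .negSucc 65, .negSucc 41, .negSucc 82, .ofNat 2, .negSucc 0] .lf) 70 174 1769472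
  [(123, .negSucc 59), (124, .negSucc 71), (125, .ofNat 108), (126, .ofNat 72), (127, .ofNat 96), (128, .negSucc 239), (129, .negSucc 47), (130, .negSucc 23), (131, .negSucc 23), (132, .ofNat 24), (133, .ofNat 12), (134, .ofNat 12), (135, .ofNat 96), (136, .negSucc 107), (137, .ofNat 48), (138, .ofNat 48), (139, .negSucc 11), (140, .ofNat 24), (152, .ofNat 192)]
  [.ofNat 12, .negSucc 1, .negSucc 11, .negSucc 8, .negSucc 5, .ofNat 3, .ofNat 22, .ofNat 0, .negSucc 19, .ofNat 0, .negSucc 11, .ofNat 24, .ofNat 0, .ofNat 11, .negSucc 5, .negSucc 47, .ofNat 18, .negSucc 11, .negSucc 10, .negSucc 16, .ofNat 11, .negSucc 13, .negSucc 11, .ofNat 12, .negSucc 2, .negSucc 2, .ofNat 7, .negSucc 12, .ofNat 6, .negSucc 5, .negSucc 8] .lf) 74 188 884736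
  [(175, .negSucc 95), (177, .ofNat 144), (178, .ofNat 144), (179, .ofNat 48)]
  [.ofNat 0, .ofNat 0, .ofNat 0, .ofNat 0, .ofNat 0, .ofNat 0, .ofNat 0, .ofNat 0, .ofNat 0, .ofNat 0, .ofNat 0, .ofNat 0, .ofNat 0, .ofNat 0, .ofNat 0, .ofNat 0, .ofNat 0, .ofNat 0, .ofNat 0, .ofNat 0, .ofNat 0, .ofNat 0, .ofNat 0, .ofNat 0, .ofNat 0, .ofNat 0, .ofNat 0, .ofNat 0, .ofNat 0, .ofNat 0, .ofNat 0, .negSucc 11, .negSucc 2, .ofNat 0, .ofNat 0, .ofNat 0, .ofNat 0, .ofNat 0, .negSucc 11, .ofNat 0, .negSucc 0] (.nd .lf 75 189 110592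
  [(177, .ofNat 192), (178, .ofNat 192), (179, .ofNat 192)]
  [.ofNat 0, .ofNat 0, .ofNat 0, .ofNat 0, .ofNat 0, .ofNat 0, .ofNat 0, .ofNat 0, .ofNat 0, .ofNat 0, .ofNat 0, .ofNat 0, .ofNat 0, .ofNat 0, .ofNat 0, .ofNat 0, .ofNat 0, .ofNat 0, .ofNat 0, .ofNat 0, .ofNat 0, .ofNat 0, .ofNat 0, .ofNat 0, .ofNat 0, .ofNat 0, .ofNat 0, .ofNat 0, .ofNat 0, .ofNat 0, .ofNat 0, .ofNat 0, .ofNat 0, .ofNat 0, .ofNat 0, .ofNat 0, .ofNat 0, .ofNat 0, .ofNat 0, .ofNat 0, .negSucc 0] .lf)) 78 190 884736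
  [(175, .ofNat 96), (176, .negSucc 191), (177, .negSucc 47), (178, .ofNat 48), (179, .ofNat 144), (187, .negSucc 191)]
  [.ofNat 0, .ofNat 0, .ofNat 0, .ofNat 0, .ofNat 0, .ofNat 0, .ofNat 0, .ofNat 0, .ofNat 0, .ofNat 0, .ofNat 0, .ofNat 0, .ofNat 0, .ofNat 0, .ofNat 0, .ofNat 0, .ofNat 0, .ofNat 0, .ofNat 0, .ofNat 0, .ofNat 0, .ofNat 0, .ofNat 0, .ofNat 0, .ofNat 0, .ofNat 0, .ofNat 0, .ofNat 0, .ofNat 0, .ofNat 0, .ofNat 0, .ofNat 12, .negSucc 2, .ofNat 0, .ofNat 24, .negSucc 15, .ofNat 24, .negSucc 7, .ofNat 8, .negSucc 15, .ofNat 3] (.nd (.nd .lf 79 191 1769472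
  [(175, .negSucc 143), (176, .negSucc 95), (177, .ofNat 24), (178, .ofNat 24), (179, .negSucc 23)]
  [.ofNat 0, .ofNat 0, .ofNat 0, .ofNat 0, .ofNat 0, .ofNat 0, .ofNat 0, .ofNat 0, .ofNat 0, .ofNat 0, .ofNat 0, .ofNat 0, .ofNat 0, .ofNat 0, .ofNat 0, .ofNat 0, .ofNat 0, .ofNat 0, .ofNat 0, .ofNat 0, .ofNat 0, .ofNat 0, .ofNat 0, .ofNat 0, .ofNat 0, .ofNat 0, .ofNat 0, .ofNat 0, .ofNat 0, .ofNat 0, .ofNat 0, .negSucc 3, .negSucc 0, .ofNat 0, .ofNat 0, .ofNat 8, .ofNat 0, .ofNat 0, .negSucc 3, .negSucc 15, .ofNat 5, .ofNat 16] .lf) 1105 153 73728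
  [(123, .negSucc 95), (126, .negSucc 191), (131, .negSucc 191), (134, .ofNat 96), (148, .negSucc 95)]
  [.ofNat 0, .ofNat 0, .ofNat 0, .ofNat 1, .ofNat 0, .ofNat 0, .ofNat 0, .ofNat 0, .ofNat 0, .ofNat 0, .ofNat 0, .ofNat 0, .ofNat 0, .ofNat 0, .ofNat 0, .ofNat 0, .ofNat 0, .negSucc 1] (.nd .lf 1106 154 36864
  [(127, .negSucc 191), (135, .ofNat 192)]
  [.ofNat 0, .ofNat 0, .ofNat 0, .ofNat 0, .ofNat 0, .ofNat 0, .negSucc 0] .lf)))) 1107 155 7077888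
  [(123, .negSucc 8), (124, .ofNat 6), (125, .negSucc 20), (126, .negSucc 17), (127, .ofNat 102), (128, .ofNat 132), (129, .ofNat 48), (133, .ofNat 105), (134, .ofNat 105), (136, .negSucc 104), (137, .negSucc 11), (138, .negSucc 11), (139, .ofNat 177), (140, .negSucc 161)]
  [.negSucc 11, .negSucc 2, .negSucc 11, .ofNat 9, .ofNat 0, .negSucc 17, .ofNat 92, .ofNat 9, .negSucc 78, .negSucc 8, .negSucc 124, .negSucc 59, .ofNat 0, .ofNat 125, .negSucc 5, .ofNat 0, .negSucc 20, .ofNat 0, .ofNat 3, .ofNat 37, .negSucc 7, .ofNat 4, .negSucc 71, .negSucc 11, .negSucc 2, .ofNat 0, .ofNat 6, .negSucc 1, .negSucc 6, .negSucc 5, .ofNat 3] (.nd (.nd (.nd (.nd (.nd .lf 1108 156 1769472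
  [(123, .negSucc 11), (124, .ofNat 72), (125, .ofNat 132), (126, .negSucc 23), (127, .ofNat 72), (128, .negSucc 143), (129, .ofNat 96), (133, .ofNat 12), (134, .ofNat 12), (136, .negSucc 11), (137, .ofNat 48), (138, .ofNat 144), (139, .ofNat 108), (140, .ofNat 168)]
  [.negSucc 19, .ofNat 7, .negSucc 3, .ofNat 3, .ofNat 0, .negSucc 5, .ofNat 20, .negSucc 4, .ofNat 11, .negSucc 2, .negSucc 14, .ofNat 12, .ofNat 0, .ofNat 15, .negSucc 1, .ofNat 0, .ofNat 33, .ofNat 0, .negSucc 6, .negSucc 56, .ofNat 16, .negSucc 19, .ofNat 24, .ofNat 12, .negSucc 0, .ofNat 0, .ofNat 2, .negSucc 13, .ofNat 11, .negSucc 1, .ofNat 1] .lf) 1109 157 3538944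
  [(123, .negSucc 53), (124, .ofNat 180), (125, .negSucc 101), (126, .ofNat 84), (127, .negSucc 131), (128, .negSucc 71), (129, .negSucc 47), (130, .ofNat 168), (131, .ofNat 72), (132, .negSucc 71), (133, .ofNat 6), (134, .negSucc 89), (136, .negSucc 5), (137, .ofNat 120), (138, .ofNat 24), (139, .negSucc 65), (140, .ofNat 132), (144, .negSucc 191), (148, .ofNat 96)]
  [.negSucc 83, .ofNat 29, .ofNat 12, .negSucc 20, .negSucc 11, .negSucc 35, .negSucc 55, .ofNat 45, .ofNat 61, .ofNat 3, .ofNat 7, .ofNat 36, .ofNat 0, .negSucc 56, .ofNat 54, .ofNat 0, .ofNat 27, .ofNat 24, .negSucc 6, .negSucc 8, .ofNat 14, .negSucc 7, .ofNat 48, .ofNat 12, .ofNat 27, .negSucc 5, .negSucc 3, .negSucc 3, .ofNat 9, .ofNat 6, .ofNat 45] .lf) 1110 158 73728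
  [(127, .negSucc 95), (129, .negSucc 95), (134, .negSucc 95), (136, .ofNat 96), (139, .negSucc 95)]
  [.ofNat 0, .ofNat 0, .ofNat 0, .ofNat 0, .ofNat 0, .ofNat 0, .negSucc 0, .ofNat 0, .ofNat 1, .ofNat 0, .ofNat 0, .ofNat 1, .ofNat 0, .ofNat 0, .ofNat 0, .ofNat 0, .ofNat 0, .ofNat 0, .ofNat 0, .ofNat 0, .ofNat 0, .ofNat 0, .ofNat 1] (.nd .lf 1111 159 1769472
  [(123, .ofNat 12), (124, .negSucc 23), (125, .ofNat 36), (126, .negSucc 167), (128, .ofNat 48), (129, .negSucc 47), (130, .negSucc 167), (131, .negSucc 71), (132, .ofNat 72), (133, .ofNat 36), (134, .ofNat 36), (136, .ofNat 60), (137, .negSucc 47), (138, .negSucc 47), (139, .negSucc 35), (140, .negSucc 119), (144, .ofNat 192), (148, .negSucc 95)]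
  [.negSucc 3, .negSucc 1, .negSucc 19, .ofNat 21, .ofNat 6, .negSucc 2, .negSucc 5, .negSucc 3, .ofNat 0, .ofNat 12, .ofNat 0, .ofNat 0, .ofNat 0, .ofNat 25, .negSucc 33, .ofNat 0, .negSucc 5, .negSucc 11, .negSucc 8, .ofNat 5, .negSucc 2, .negSucc 1, .ofNat 12, .ofNat 12, .negSucc 16, .ofNat 3, .ofNat 9, .negSucc 2, .negSucc 1, .negSucc 9, .negSucc 18] .lf)) 1112 160 7077888
  [(123, .negSucc 50), (124, .negSucc 29), (125, .ofNat 9), (126, .ofNat 90), (127, .negSucc 221), (128, .negSucc 275), (129, .negSucc 47), (130, .ofNat 288), (131, .ofNat 96), (132, .negSucc 95), (133, .negSucc 140), (134, .negSucc 236), (136, .ofNat 141), (137, .ofNat 252), (138, .ofNat 60), (139, .negSucc 212), (140, .ofNat 426), (144, .negSucc 383), (148, .ofNat 96)]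
  [.ofNat 60, .ofNat 31, .ofNat 60, .negSucc 44, .negSucc 95, .negSucc 53, .negSucc 171, .ofNat 99, .ofNat 251, .negSucc 2, .ofNat 161, .ofNat 108, .ofNat 0, .negSucc 368, .ofNat 222, .ofNat 0, .ofNat 153, .ofNat 0, .negSucc 46, .negSucc 56, .ofNat 88, .negSucc 51, .ofNat 168, .ofNat 60, .ofNat 111, .negSucc 47, .negSucc 13, .negSucc 37, .ofNat 51, .ofNat 30, .ofNat 81] (.nd (.nd .lf 1113 161 73728
  [(123, .ofNat 96), (131, .ofNat 192), (134, .ofNat 96), (148, .ofNat 96), (152, .negSucc 191)]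
  [.ofNat 0, .ofNat 0, .ofNat 0, .ofNat 0, .ofNat 0, .negSucc 0, .ofNat 0, .ofNat 0, .ofNat 0, .ofNat 0, .ofNat 0, .ofNat 0, .ofNat 0, .ofNat 0, .ofNat 0, .ofNat 0, .ofNat 0, .ofNat 2] .lf) 1114 162 884736
  [(123, .negSucc 119), (124, .ofNat 144), (125, .negSucc 119), (126, .ofNat 336), (127, .negSucc 143), (128, .negSucc 95), (129, .negSucc 95), (130, .ofNat 288), (131, .ofNat 288), (132, .negSucc 95), (133, .ofNat 24), (134, .negSucc 263), (136, .negSucc 23), (137, .ofNat 288), (139, .negSucc 71), (140, .ofNat 144), (144, .negSucc 383), (148, .ofNat 288), (152, .ofNat 192)]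
  [.negSucc 19, .ofNat 9, .negSucc 3, .negSucc 20, .negSucc 11, .negSucc 23, .negSucc 15, .ofNat 25, .ofNat 29, .ofNat 3, .negSucc 0, .ofNat 12, .ofNat 0, .negSucc 24, .ofNat 22, .ofNat 0, .ofNat 15, .ofNat 24, .negSucc 10, .ofNat 7, .ofNat 10, .negSucc 7, .ofNat 24, .ofNat 12, .ofNat 11, .negSucc 5, .ofNat 4, .negSucc 7, .ofNat 5, .negSucc 1, .ofNat 13] (.nd .lf 1115 163 3538944
  [(123, .ofNat 18), (124, .negSucc 11), (125, .ofNat 42), (126, .ofNat 36), (127, .negSucc 107), (128, .negSucc 71), (133, .negSucc 17), (134, .negSucc 113), (136, .ofNat 114), (137, .ofNat 24), (138, .ofNat 24), (139, .negSucc 65), (140, .ofNat 132)]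
  [.ofNat 12, .ofNat 3, .ofNat 12, .negSucc 8, .ofNat 0, .ofNat 18, .negSucc 43, .negSucc 8, .ofNat 31, .ofNat 9, .ofNat 29, .ofNat 12, .ofNat 0, .negSucc 28, .ofNat 6, .ofNat 0, .ofNat 21, .ofNat 0, .negSucc 2, .negSucc 36, .ofNat 8, .negSucc 3, .ofNat 24, .ofNat 12, .ofNat 3, .ofNat 0, .negSucc 5, .ofNat 2, .ofNat 7, .ofNat 6, .negSucc 2] .lf))) 1125 183 36864
  [(175, .negSucc 191), (178, .ofNat 192)]
  [.ofNat 0, .ofNat 0, .ofNat 0, .ofNat 0, .ofNat 0, .ofNat 0, .ofNat 0, .ofNat 0, .ofNat 0, .ofNat 0, .ofNat 0, .ofNat 0, .ofNat 0, .ofNat 0, .ofNat 0, .ofNat 0, .ofNat 0, .ofNat 0, .ofNat 0, .ofNat 0, .ofNat 0, .ofNat 0, .ofNat 0, .ofNat 0, .ofNat 0, .ofNat 0, .ofNat 0, .ofNat 0, .ofNat 0, .ofNat 0, .ofNat 0, .negSucc 0] (.nd (.nd (.nd .lf 1126 184 3538944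
  [(175, .negSucc 23), (176, .negSucc 47), (177, .negSucc 11), (178, .ofNat 36), (179, .negSucc 35)]
  [.ofNat 0, .ofNat 0, .ofNat 0, .ofNat 0, .ofNat 0, .ofNat 0, .ofNat 0, .ofNat 0, .ofNat 0, .ofNat 0, .ofNat 0, .ofNat 0, .ofNat 0, .ofNat 0, .ofNat 0, .ofNat 0, .ofNat 0, .ofNat 0, .ofNat 0, .ofNat 0, .ofNat 0, .ofNat 0, .ofNat 0, .ofNat 0, .ofNat 0, .ofNat 0, .ofNat 0, .ofNat 0, .ofNat 0, .ofNat 0, .ofNat 0, .negSucc 11, .negSucc 2, .ofNat 24, .ofNat 0, .ofNat 24, .ofNat 0, .ofNat 0, .negSucc 11, .ofNat 0, .negSucc 0] .lf) 1127 185 1769472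
  [(175, .ofNat 48), (176, .negSucc 95), (177, .negSucc 71), (178, .ofNat 24), (179, .negSucc 23)]
  [.ofNat 0, .ofNat 0, .ofNat 0, .ofNat 0, .ofNat 0, .ofNat 0, .ofNat 0, .ofNat 0, .ofNat 0, .ofNat 0, .ofNat 0, .ofNat 0, .ofNat 0, .ofNat 0, .ofNat 0, .ofNat 0, .ofNat 0, .ofNat 0, .ofNat 0, .ofNat 0, .ofNat 0, .ofNat 0, .ofNat 0, .ofNat 0, .ofNat 0, .ofNat 0, .ofNat 0, .ofNat 0, .ofNat 0, .ofNat 0, .ofNat 0, .ofNat 12, .ofNat 3, .ofNat 0, .ofNat 0, .negSucc 7, .ofNat 0, .negSucc 15, .ofNat 4, .negSucc 31, .ofNat 9] (.nd .lf 1128 186 884736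
  [(175, .ofNat 96), (177, .ofNat 48), (178, .negSucc 47), (179, .ofNat 48)]
  [.ofNat 0, .ofNat 0, .ofNat 0, .ofNat 0, .ofNat 0, .ofNat 0, .ofNat 0, .ofNat 0, .ofNat 0, .ofNat 0, .ofNat 0, .ofNat 0, .ofNat 0, .ofNat 0, .ofNat 0, .ofNat 0, .ofNat 0, .ofNat 0, .ofNat 0, .ofNat 0, .ofNat 0, .ofNat 0, .ofNat 0, .ofNat 0, .ofNat 0, .ofNat 0, .ofNat 0, .ofNat 0, .ofNat 0, .ofNat 0, .ofNat 0, .ofNat 12, .negSucc 2, .ofNat 0, .ofNat 0, .ofNat 0, .ofNat 0, .ofNat 0, .ofNat 0, .ofNat 0, .negSucc 0] .lf)) 1129 187 1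
  [(187, .ofNat 192)]
  [] (.nd (.nd .lf 2149 148 1
  [(148, .ofNat 192)]
  [] .lf) 2150 149 7077888
  [(123, .ofNat 21), (124, .negSucc 173), (125, .ofNat 33), (126, .negSucc 149), (127, .ofNat 162), (128, .ofNat 204), (129, .ofNat 48), (130, .negSucc 143), (131, .negSucc 143), (132, .ofNat 144), (133, .ofNat 75), (134, .ofNat 171), (136, .negSucc 74), (137, .negSucc 227), (138, .negSucc 35), (139, .ofNat 147), (140, .negSucc 293), (144, .ofNat 192), (148, .negSucc 95)]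
  [.negSucc 35, .negSucc 16, .negSucc 35, .ofNat 75, .ofNat 48, .ofNat 66, .ofNat 132, .negSucc 92, .negSucc 164, .negSucc 2, .negSucc 94, .negSucc 83, .negSucc 191, .ofNat 295, .negSucc 209, .ofNat 0, .negSucc 86, .negSucc 95, .ofNat 25, .negSucc 0, .negSucc 47, .ofNat 28, .negSucc 119, .negSucc 35, .negSucc 104, .ofNat 24, .ofNat 10, .ofNat 18, .negSucc 28, .negSucc 17, .ofNat 9] (.nd .lf 2151 150 1769472
  [(123, .ofNat 60), (124, .ofNat 24), (125, .ofNat 108), (126, .negSucc 263), (127, .ofNat 24), (128, .negSucc 47), (129, .ofNat 96), (130, .negSucc 191), (131, .negSucc 191), (132, .ofNat 192), (133, .negSucc 59), (134, .ofNat 132), (136, .ofNat 60), (137, .negSucc 239), (138, .ofNat 48), (139, .ofNat 36), (140, .negSucc 71), (144, .ofNat 384), (148, .negSucc 191)]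
  [.negSucc 11, .ofNat 5, .negSucc 11, .ofNat 33, .ofNat 0, .ofNat 30, .ofNat 12, .negSucc 38, .negSucc 14, .negSucc 8, .ofNat 11, .negSucc 11, .ofNat 0, .ofNat 53, .negSucc 53, .ofNat 0, .ofNat 3, .negSucc 47, .ofNat 11, .negSucc 34, .ofNat 0, .ofNat 4, .negSucc 23, .negSucc 11, .negSucc 26, .ofNat 0, .negSucc 9, .ofNat 6, .ofNat 1, .negSucc 5, .negSucc 20] .lf))))) 2152 151 7077888
  [(123, .ofNat 9), (124, .negSucc 5), (125, .negSucc 74), (126, .ofNat 210), (127, .negSucc 101), (128, .negSucc 131), (129, .negSucc 47), (130, .ofNat 192), (131, .ofNat 192), (132, .negSucc 191), (133, .negSucc 8), (134, .negSucc 104), (136, .ofNat 9), (137, .ofNat 204), (138, .ofNat 12), (139, .negSucc 80), (140, .ofNat 162), (144, .negSucc 383), (148, .ofNat 96)]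
  [.ofNat 12, .ofNat 3, .ofNat 12, .negSucc 104, .ofNat 0, .negSucc 77, .negSucc 91, .ofNat 87, .ofNat 79, .ofNat 9, .ofNat 29, .ofNat 60, .ofNat 0, .negSucc 220, .ofNat 198, .ofNat 0, .ofNat 21, .ofNat 192, .negSucc 2, .ofNat 59, .ofNat 8, .negSucc 3, .ofNat 72, .ofNat 12, .ofNat 99, .ofNat 0, .negSucc 5, .ofNat 2, .ofNat 7, .ofNat 6, .ofNat 93] (.nd (.nd (.nd (.nd (.nd (.nd .lf 2153 152 1
  [(152, .ofNat 192)]
  [] .lf) 3113 130 1
  [(130, .ofNat 192)]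
  [] .lf) 3114 131 1
  [(131, .ofNat 192)]
  [] (.nd .lf 3115 132 1
  [(132, .ofNat 192)]
  [] .lf)) 4131 133 1
  [(133, .ofNat 192)]
  [] (.nd (.nd .lf 4132 134 1
  [(134, .ofNat 192)]
  [] .lf) 4133 135 1
  [(135, .ofNat 192)]
  [] (.nd .lf 4134 136 1
  [(136, .ofNat 192)]
  [] .lf))) 4137 177 1
  [(177, .ofNat 192)]
  [] (.nd (.nd (.nd (.nd .lf 4138 178 1
  [(178, .ofNat 192)]
  [] .lf) 4139 179 1
  [(179, .ofNat 192)]
  [] .lf) 5151 139 1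
  [(139, .ofNat 192)]
  [] (.nd .lf 5152 140 1
  [(140, .ofNat 192)]
  [] .lf)) 5153 141 1769472
  [(123, .negSucc 11), (124, .ofNat 72), (125, .ofNat 132), (126, .negSucc 23), (127, .negSucc 311), (128, .negSucc 143), (129, .negSucc 95), (133, .negSucc 179), (134, .negSucc 179), (136, .ofNat 180), (137, .ofNat 48), (138, .ofNat 144), (139, .negSucc 83), (140, .ofNat 168)]
  [.negSucc 19, .ofNat 7, .negSucc 3, .ofNat 3, .ofNat 0, .negSucc 5, .negSucc 43, .negSucc 4, .ofNat 43, .negSucc 2, .ofNat 49, .ofNat 12, .ofNat 0, .negSucc 48, .negSucc 1, .ofNat 0, .ofNat 33, .ofNat 0, .negSucc 6, .ofNat 7, .negSucc 15, .ofNat 12, .ofNat 24, .ofNat 12, .negSucc 0, .ofNat 0, .ofNat 2, .ofNat 2, .ofNat 11, .negSucc 1, .ofNat 1] (.nd (.nd .lf 6166 142 7077888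
  [(123, .ofNat 63), (124, .ofNat 6), (125, .ofNat 27), (126, .ofNat 126), (127, .ofNat 30), (128, .negSucc 59), (130, .ofNat 24), (131, .ofNat 120), (132, .negSucc 119), (133, .negSucc 14), (134, .negSucc 14), (136, .ofNat 15), (137, .ofNat 84), (138, .negSucc 11), (139, .negSucc 14), (140, .ofNat 30)]
  [.negSucc 11, .negSucc 54, .negSucc 11, .negSucc 62, .ofNat 24, .negSucc 5, .ofNat 20, .negSucc 2, .negSucc 42, .ofNat 3, .ofNat 15, .negSucc 11, .ofNat 0, .negSucc 106, .ofNat 90, .ofNat 0, .negSucc 32, .ofNat 144, .ofNat 11, .ofNat 77, .negSucc 19, .ofNat 12, .negSucc 23, .negSucc 11, .ofNat 45, .ofNat 12, .ofNat 2, .ofNat 10, .negSucc 10, .negSucc 5, .ofNat 3] .lf) 6167 143 3538944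
  [(123, .negSucc 17), (124, .ofNat 12), (125, .negSucc 41), (126, .negSucc 35), (127, .ofNat 204), (128, .negSucc 119), (129, .ofNat 96), (133, .ofNat 18), (134, .ofNat 210), (136, .negSucc 209), (137, .negSucc 23), (138, .negSucc 23), (139, .ofNat 162), (140, .ofNat 60)]
  [.negSucc 11, .negSucc 2, .negSucc 11, .ofNat 9, .ofNat 0, .negSucc 17, .ofNat 92, .ofNat 9, .negSucc 78, .negSucc 8, .negSucc 28, .negSucc 59, .ofNat 0, .negSucc 66, .negSucc 5, .ofNat 0, .negSucc 20, .ofNat 0, .ofNat 3, .ofNat 37, .negSucc 7, .ofNat 4, .negSucc 71, .negSucc 11, .negSucc 2, .ofNat 0, .ofNat 6, .negSucc 1, .negSucc 6, .negSucc 5, .ofNat 3] (.nd .lf 6168 144 1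
  [(144, .ofNat 192)]
  [] .lf)))) 6169 145 1769472
  [(123, .negSucc 59), (124, .negSucc 23), (125, .negSucc 107), (126, .negSucc 119), (127, .negSucc 23), (128, .ofNat 432), (129, .negSucc 95), (130, .negSucc 191), (131, .negSucc 191), (132, .ofNat 192), (133, .ofNat 60), (134, .ofNat 60), (136, .negSucc 59), (137, .negSucc 143), (138, .negSucc 47), (139, .ofNat 156), (140, .negSucc 311), (144, .ofNat 384)]
  [.ofNat 12, .ofNat 27, .ofNat 12, .ofNat 15, .ofNat 0, .ofNat 18, .negSucc 11, .negSucc 8, .ofNat 15, .ofNat 9, .negSucc 26, .ofNat 12, .ofNat 0, .ofNat 123, .negSucc 41, .ofNat 0, .negSucc 2, .negSucc 47, .ofNat 21, .negSucc 44, .ofNat 0, .negSucc 3, .ofNat 24, .ofNat 12, .negSucc 20, .ofNat 0, .negSucc 5, .negSucc 5, .negSucc 0, .ofNat 6, .negSucc 26] (.nd (.nd (.nd (.nd (.nd .lf 6170 146 7077888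
  [(123, .negSucc 32), (124, .ofNat 6), (125, .negSucc 68), (126, .negSucc 65), (127, .ofNat 30), (128, .ofNat 132), (130, .negSucc 167), (131, .negSucc 71), (132, .ofNat 72), (133, .ofNat 81), (134, .ofNat 81), (136, .negSucc 80), (137, .negSucc 107), (138, .negSucc 11), (139, .ofNat 81), (140, .negSucc 161), (144, .ofNat 192)]
  [.negSucc 11, .ofNat 41, .negSucc 11, .ofNat 33, .ofNat 24, .negSucc 5, .ofNat 20, .negSucc 2, .negSucc 42, .ofNat 3, .negSucc 80, .negSucc 11, .ofNat 0, .ofNat 181, .negSucc 101, .ofNat 0, .negSucc 32, .negSucc 47, .ofNat 11, .negSucc 18, .negSucc 19, .ofNat 12, .negSucc 23, .negSucc 11, .negSucc 50, .ofNat 12, .ofNat 2, .ofNat 10, .negSucc 10, .negSucc 5, .negSucc 92] .lf) 6171 147 7077888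
  [(123, .negSucc 8), (124, .ofNat 6), (125, .negSucc 20), (126, .negSucc 17), (127, .ofNat 6), (128, .ofNat 132), (129, .negSucc 47), (133, .negSucc 86), (134, .ofNat 9), (136, .negSucc 8), (137, .negSucc 11), (138, .negSucc 11), (139, .ofNat 81), (140, .ofNat 30)]
  [.negSucc 11, .negSucc 2, .negSucc 11, .ofNat 9, .ofNat 0, .negSucc 17, .negSucc 3, .ofNat 9, .ofNat 17, .negSucc 8, .ofNat 67, .negSucc 155, .ofNat 0, .negSucc 66, .negSucc 5, .ofNat 0, .negSucc 20, .ofNat 0, .ofNat 3, .ofNat 37, .negSucc 7, .ofNat 4, .ofNat 24, .negSucc 11, .negSucc 2, .ofNat 0, .ofNat 6, .negSucc 1, .negSucc 6, .negSucc 5, .ofNat 3] .lf) 6175 180 1769472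
  [(175, .ofNat 144), (176, .ofNat 96), (177, .negSucc 23), (178, .negSucc 119), (179, .ofNat 120)]
  [.ofNat 0, .ofNat 0, .ofNat 0, .ofNat 0, .ofNat 0, .ofNat 0, .ofNat 0, .ofNat 0, .ofNat 0, .ofNat 0, .ofNat 0, .ofNat 0, .ofNat 0, .ofNat 0, .ofNat 0, .ofNat 0, .ofNat 0, .ofNat 0, .ofNat 0, .ofNat 0, .ofNat 0, .ofNat 0, .ofNat 0, .ofNat 0, .ofNat 0, .ofNat 0, .ofNat 0, .ofNat 0, .ofNat 0, .ofNat 0, .ofNat 0, .ofNat 36, .negSucc 2, .ofNat 0, .ofNat 0, .negSucc 23, .ofNat 0, .ofNat 0, .ofNat 12, .ofNat 0, .negSucc 0] (.nd .lf 6176 181 3538944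
  [(175, .negSucc 23), (176, .negSucc 47), (177, .ofNat 84), (178, .ofNat 36), (179, .negSucc 35)]
  [.ofNat 0, .ofNat 0, .ofNat 0, .ofNat 0, .ofNat 0, .ofNat 0, .ofNat 0, .ofNat 0, .ofNat 0, .ofNat 0, .ofNat 0, .ofNat 0, .ofNat 0, .ofNat 0, .ofNat 0, .ofNat 0, .ofNat 0, .ofNat 0, .ofNat 0, .ofNat 0, .ofNat 0, .ofNat 0, .ofNat 0, .ofNat 0, .ofNat 0, .ofNat 0, .ofNat 0, .ofNat 0, .ofNat 0, .ofNat 0, .ofNat 0, .negSucc 11, .negSucc 2, .negSucc 23, .negSucc 95, .ofNat 24, .ofNat 0, .ofNat 0, .negSucc 11, .ofNat 0, .negSucc 0] .lf)) 6177 182 221184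
  [(175, .ofNat 192), (176, .ofNat 192), (177, .negSucc 95), (178, .negSucc 95), (179, .ofNat 96)]
  [.ofNat 0, .ofNat 0, .ofNat 0, .ofNat 0, .ofNat 0, .ofNat 0, .ofNat 0, .ofNat 0, .ofNat 0, .ofNat 0, .ofNat 0, .ofNat 0, .ofNat 0, .ofNat 0, .ofNat 0, .ofNat 0, .ofNat 0, .ofNat 0, .ofNat 0, .ofNat 0, .ofNat 0, .ofNat 0, .ofNat 0, .ofNat 0, .ofNat 0, .ofNat 0, .ofNat 0, .ofNat 0, .ofNat 0, .ofNat 0, .ofNat 0, .ofNat 6, .ofNat 0, .ofNat 0, .ofNat 0, .negSucc 3, .ofNat 0, .negSucc 1, .ofNat 2, .ofNat 2, .negSucc 0] (.nd (.nd .lf 7184 123 1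
  [(123, .ofNat 192)]
  [] .lf) 8208 126 1
  [(126, .ofNat 192)]
  [] (.nd .lf 9231 127 1
  [(127, .ofNat 192)]
  [] .lf))) 9232 175 1
  [(175, .ofNat 192)]
  [] (.nd (.nd (.nd .lf 10253 124 1
  [(124, .ofNat 192)]
  [] .lf) 10254 125 1
  [(125, .ofNat 192)]
  [] (.nd .lf 11277 128 1
  [(128, .ofNat 192)]
  [] .lf)) 11278 129 1
  [(129, .ofNat 192)]
  [] (.nd (.nd .lf 12301 137 1
  [(137, .ofNat 192)]
  [] .lf) 12302 138 1
  [(138, .ofNat 192)]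
  [] (.nd .lf 13326 176 1
  [(176, .ofNat 192)]
  [] .lf))))))

end Pool.Agent.H76.EB.Dat
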