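import Pool.Agent.H8.Alt.Super.Schemas
import Mathlib.Data.Nat.Bitwise

/-!
# A verified checker over `ℤ` for super identities (engine for `β`)

Elements are integer combinations of words; words are numbered, word `k` is the commutator of two
earlier words.  All functions are written with raw recursors so that the kernel evaluates them
quickly.
-/

set_option autoImplicit false

namespace Pool.Agent.H76.EB

open H8Alt.Super

/-- integer combinations -/
abbrev Cb := List (ℕ × ℤ)

/-- the common scaling factor of the tables -/
abbrev NN : ℕ := 192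

/-- tables: key, word, denominator, normal form, certificate -/
inductive BT
  | lf : BT
  | nd (l : BT) (key k e : ℕ) (cb : Cb) (cs : List ℤ) (r : BT) : BT

noncomputable def isz (c : ℤ) : Bool :=
  Int.rec (motive := fun _ => Bool) (fun n => Nat.beq n 0) (fun _ => false) c

noncomputable def mgo (k : ℕ) (c : ℤ) (l : Cb) (f : Cb → Cb) (m : Cb) : Cb :=
  List.rec (motive := fun _ => Cb) ((k, c) :: l)
    (fun t m ih =>
      Bool.rec (motive := fun _ => Cb)
        (Bool.rec (motive := fun _ => Cb) (t :: ih)
          (Bool.rec (motive := fun _ => Cb) ((k, c + t.2) :: f m) (f m) (isz (c + t.2)))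
          (Nat.beq k t.1))
        ((k, c) :: f (t :: m)) (Nat.ble (Nat.succ k) t.1)) m

/-- sum -/
noncomputable def merge (a : Cb) : Cb → Cb :=
  List.rec (motive := fun _ => Cb → Cb) (fun m => m) (fun t l ih m => mgo t.1 t.2 l ih m) a

/-- multiple -/
noncomputable def scl (q : ℤ) (a : Cb) : Cb :=
  List.rec (motive := fun _ => Cb) [] (fun t _ ih => (t.1, q * t.2) :: ih) a

/-- bind for options -/
noncomputable def ob {α β : Type} (x : Option α) (f : α → Option β) : Option β :=
  Option.rec (motive := fun _ => Option β) none f x

noncomputable def linR (f : ℕ → Option Cb) (c : ℤ) (b : Cb) : Option Cb :=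
  List.rec (motive := fun _ => Option Cb) (some [])
    (fun t _ ih => ob (f t.1) fun r => ob ih fun s => some (merge (scl (c * t.2) r) s)) b

/-- bilinear extension -/
noncomputable def bil (f : ℕ → ℕ → Option Cb) (a b : Cb) : Option Cb :=
  List.rec (motive := fun _ => Option Cb) (some [])
    (fun t _ ih => ob (linR (f t.1) t.2 b) fun r => ob ih fun s => some (merge r s)) a

noncomputable def findN (x : ℕ) (t : BT) : Option Cb :=
  BT.rec (motive := fun _ => Option Cb) none
    (fun _ key _ _ cb _ _ fl fr =>
      Bool.rec (motive := fun _ => Option Cb)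
        (Bool.rec (motive := fun _ => Option Cb) (some cb) fr (Nat.ble (Nat.succ key) x)) fl
        (Nat.ble (Nat.succ x) key)) t

noncomputable def findD (x : ℕ) (t : BT) : Option Cb :=
  BT.rec (motive := fun _ => Option Cb) none
    (fun _ key k _ _ _ _ fl fr =>
      Bool.rec (motive := fun _ => Option Cb)
        (Bool.rec (motive := fun _ => Option Cb) (some [(k, (NN : ℤ))]) fr
          (Nat.ble (Nat.succ key) x)) fl
        (Nat.ble (Nat.succ x) key)) t

/-- search in the verified tables, then in the current table -/
noncomputable def raw (L : List BT) (D : BT) (x : ℕ) : Option Cb :=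
  List.rec (motive := fun _ => Option Cb) (findD x D)
    (fun T _ ih => Option.rec (motive := fun _ => Option Cb) ih (fun r => some r) (findN x T)) L

/-- sign -/
noncomputable def sgb (b : Bool) : ℤ := Bool.rec (motive := fun _ => ℤ) (-1) 1 b

/-- normal form of the commutator of two words -/
noncomputable def look (PM : ℕ) (L : List BT) (D : BT) (i j : ℕ) : Option Cb :=
  Bool.rec (motive := fun _ => Option Cb) none
    (Bool.rec (motive := fun _ => Option Cb) none
      (Bool.rec (motive := fun _ => Option Cb)
        (Bool.rec (motive := fun _ => Option Cb)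
          (ob (raw L D (j * 1024 + i)) fun r =>
            some (scl (sgb (Nat.testBit PM j && Nat.testBit PM i)) r))
          (raw L D (i * 1024 + j))
          (Nat.ble i j))
        (Bool.rec (motive := fun _ => Option Cb) (some []) (raw L D (i * 1024 + j))
          (Nat.testBit PM i))
        (Nat.beq i j))
      (Nat.ble (Nat.succ j) 1024))
    (Nat.ble (Nat.succ i) 1024)

/-- normal form of the Jordan product of two words -/
noncomputable def lookJ (PM : ℕ) (i j : ℕ) : Option Cb :=
  Bool.rec (motive := fun _ => Option Cb) none
    (Bool.rec (motive := fun _ => Option Cb) none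
      (Bool.rec (motive := fun _ => Option Cb)
        (Bool.rec (motive := fun _ => Option Cb)
          (some [(j * 1024 + i, - sgb (Nat.testBit PM j && Nat.testBit PM i))])
          (some [(i * 1024 + j, 1)])
          (Nat.ble i j))
        (Bool.rec (motive := fun _ => Option Cb) (some [(i * 1024 + j, 1)]) (some [])
          (Nat.testBit PM i))
        (Nat.beq i j))
      (Nat.ble (Nat.succ j) 1024))
    (Nat.ble (Nat.succ i) 1024)

/-- three parities -/
noncomputable def p3 (a b c : Bool) (i : ℕ) : Bool :=
  Nat.rec (motive := fun _ => Bool) a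
    (fun n _ => Nat.rec (motive := fun _ => Bool) b (fun _ _ => c) n) i

/-- parity of a tree -/
noncomputable def pT (p : ℕ → Bool) (t : Tr) : Bool :=
  Tr.rec (motive := fun _ => Bool) (fun i => p i) (fun _ _ x y => xor x y)
    (fun _ _ _ x y z => xor x (xor y z)) t

/-- scale of a tree -/
noncomputable def scT (t : Tr) : ℕ :=
  Tr.rec (motive := fun _ => ℕ) (fun _ => 1) (fun _ _ x y => NN * (x * y))
    (fun _ _ _ x y z => 6 * NN * NN * (x * (y * z))) t

/-- scale of a root -/
noncomputable def scR (t : RT) : ℕ :=
  RT.rec (motive := fun _ => ℕ) (fun s t => scT (.c s t)) (fun s t u => scT (.a s t u))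
    (fun s t => scT s * scT t) t

/-- the super Jacobian -/
noncomputable def jacE (lk : ℕ → ℕ → Option Cb) (q1 q2 q3 : Bool) (a b c : Cb) : Option Cb :=
  ob (bil lk a b) fun ab => ob (bil lk ab c) fun x =>
  ob (bil lk b c) fun bc => ob (bil lk bc a) fun y =>
  ob (bil lk c a) fun ca => ob (bil lk ca b) fun z =>
  some (merge x (merge (scl (kos (p3 q1 q2 q3) [1, 2, 0]) y)
    (scl (kos (p3 q1 q2 q3) [2, 0, 1]) z)))

/-- skip the second factor if the first one is zero -/
noncomputable def skip (a : Cb) (f : Option Cb) : Option Cb :=
  List.rec (motive := fun _ => Option Cb) (some []) (fun _ _ _ => f) a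

/-- normal form of a tree -/
noncomputable def evN (lk : ℕ → ℕ → Option Cb) (p : ℕ → Bool) (args : ℕ → ℕ) (t : Tr) :
    Option Cb :=
  Tr.rec (motive := fun _ => Option Cb) (fun i => some [(args i, 1)])
    (fun _ _ x y => ob x fun a => skip a (ob y fun b => bil lk a b))
    (fun s t u x y z => ob x fun a => ob y fun b => ob z fun c =>
      jacE lk (pT p s) (pT p t) (pT p u) a b c) t

/-- normal form of a root, commutators and associators -/
noncomputable def evA (lk : ℕ → ℕ → Option Cb) (p : ℕ → Bool) (args : ℕ → ℕ) (t : RT) :
    Option Cb :=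
  RT.rec (motive := fun _ => Option Cb) (fun s t => evN lk p args (.c s t))
    (fun s t u => evN lk p args (.a s t u)) (fun _ _ => none) t

/-- normal form of a root, Jordan products -/
noncomputable def evJ (PM : ℕ) (lk : ℕ → ℕ → Option Cb) (p : ℕ → Bool) (args : ℕ → ℕ) (t : RT) :
    Option Cb :=
  RT.rec (motive := fun _ => Option Cb) (fun _ _ => none) (fun _ _ _ => none)
    (fun s t => ob (evN lk p args s) fun a => skip a (ob (evN lk p args t) fun b =>
      bil (lookJ PM) a b)) t

/-- value of a schema, with scale `Q` -/
noncomputable def evSc (f : RT → Option Cb) (Q : ℕ) (p : ℕ → Bool) (s : List (ℤ × RT)) :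
    Option Cb :=
  List.rec (motive := fun _ => Option Cb) (some [])
    (fun t _ ih => Bool.rec (motive := fun _ => Option Cb) none
      (ob (f t.2) fun a => ob ih fun b => some (merge (scl (t.1 * kos p t.2.leaves) a) b))
      (Nat.beq (scR t.2) Q)) s

/-- arguments of a schema as a function -/
noncomputable def getA (l : List ℕ) : ℕ → ℕ :=
  List.rec (motive := fun _ => ℕ → ℕ) (fun _ => 0)
    (fun x _ ih i => Nat.rec (motive := fun _ => ℕ) x (fun n _ => ih n) i) l

/-- parities of the letters -/
noncomputable def pA (PM : ℕ) (l : List ℕ) (i : ℕ) : Bool := Nat.testBit PM (getA l i)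

/-- an instance of `sR4` -/
noncomputable def inst4 (PM : ℕ) (L : List BT) (D : BT) (l : List ℕ) : Option Cb :=
  evSc (evA (look PM L D) (pA PM l) (getA l)) (6 * NN * NN * NN) (pA PM l) sR4

/-- all instances -/
noncomputable def insts (PM : ℕ) (L : List BT) (D : BT) (ll : List (List ℕ)) :
    Option (List Cb) :=
  List.rec (motive := fun _ => Option (List Cb)) (some [])
    (fun l _ ih => ob (inst4 PM L D l) fun a => ob ih fun b => some (a :: b)) ll

/-- combination of the instances -/
noncomputable def comb (cs : List ℤ) : List Cb → Cb :=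
  List.rec (motive := fun _ => List Cb → Cb) (fun _ => [])
    (fun c _ ih l => List.rec (motive := fun _ => Cb) []
      (fun i l _ => Bool.rec (motive := fun _ => Cb) (merge (scl c i) (ih l)) (ih l) (isz c)) l)
    cs

/-- all coefficients vanish -/
noncomputable def allz (a : Cb) : Bool :=
  List.rec (motive := fun _ => Bool) true
    (fun t _ ih => Bool.rec (motive := fun _ => Bool) false ih (isz t.2)) a

/-- only primes 2 and 3 -/
noncomputable def smo (e : ℕ) : Bool := Nat.beq (Nat.mod (6 ^ 60) e) 0

/-- field number `i` of a packed table with 24-bit fields -/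
noncomputable def fld (DK i : ℕ) : ℕ := Nat.mod (Nat.shiftRight DK (Nat.mul 24 i)) 16777216

/-- check of one row -/
noncomputable def rowOK (KK DK : ℕ) (is : List Cb) (key k e : ℕ) (cb : Cb) (cs : List ℤ) : Bool :=
  (allz (merge (comb cs is) (merge (scl (e : ℤ) cb) [(k, - ((e * NN : ℕ) : ℤ))])) && smo e) &&
    ((Nat.beq (fld DK k) key && Nat.ble 3 k) && (Nat.ble (Nat.succ k) KK &&
      (Nat.ble (Nat.succ (Nat.div key 1024)) k && Nat.ble (Nat.succ (Nat.mod key 1024)) k)))

/-- check of a table -/
noncomputable def chkT (KK DK : ℕ) (is : List Cb) (t : BT) : Bool :=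
  BT.rec (motive := fun _ => Bool) true
    (fun _ key k e cb cs _ cl cr => (cl && cr) && rowOK KK DK is key k e cb cs) t

/-- check of a block -/
noncomputable def chkB (KK DK PM : ℕ) (L : List BT) (D : BT) (ll : List (List ℕ)) : Bool :=
  Option.rec (motive := fun _ => Bool) false (fun is => chkT KK DK is D) (insts PM L D ll)

/-- check of the definitions of the words and their parities -/
noncomputable def chkP (DK PM n : ℕ) : Bool :=
  Nat.rec (motive := fun _ => Bool) true
    (fun k ih => ih && (Nat.ble k 2 ||
      (Nat.testBit PM k == xor (Nat.testBit PM (Nat.div (fld DK k) 1024))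
        (Nat.testBit PM (Nat.mod (fld DK k) 1024))))) n

/-- an instance of a Jordan schema -/
noncomputable def instJ (PM : ℕ) (L : List BT) (Q : ℕ) (s : List (ℤ × RT)) (l : List ℕ) :
    Option Cb :=
  evSc (evJ PM (look PM L .lf) (pA PM l) (getA l)) Q (pA PM l) s

end Pool.Agent.H76.EB
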