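import Pool.Agent.H76.EB.Eng
import Mathlib.Tactic.Module
import Mathlib.Tactic.LinearCombination
import Mathlib.Algebra.Module.Basic

/-!
# Soundness of the checker
-/

set_option autoImplicit false

namespace Pool.Agent.H76.EB

open H8Alt.Super

section

variable {S : Type*} [AddCommGroup S]

/-- value of a combination -/
def ev (V : ℕ → S) : Cb → S
  | [] => 0
  | t :: l => t.2 • V t.1 + ev V l

theorem isz_eq {c : ℤ} (h : isz c = true) : c = 0 := by
  cases c with
  | ofNat n =>
    have h1 : Nat.beq n 0 = true := h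
    have := Nat.eq_of_beq_eq_true h1
    subst this
    rfl
  | negSucc n =>
    have h1 : false = true := h
    cases h1

theorem ev_mgo (V : ℕ → S) (k : ℕ) (c : ℤ) (l : Cb) (f : Cb → Cb)
    (hf : ∀ m, ev V (f m) = ev V l + ev V m) (m : Cb) :
    ev V (mgo k c l f m) = c • V k + ev V l + ev V m := by
  induction m with
  | nil => simp [mgo, ev]
  | cons t m ih =>
    have e : mgo k c l f (t :: m) =
      Bool.rec (motive := fun _ => Cb)
        (Bool.rec (motive := fun _ => Cb) (t :: mgo k c l f m)
          (Bool.rec (motive := fun _ => Cb) ((k, c + t.2) :: f m) (f m) (isz (c + t.2)))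
          (Nat.beq k t.1))
        ((k, c) :: f (t :: m)) (Nat.ble (Nat.succ k) t.1) := rfl
    rw [e]
    cases h1 : Nat.ble (Nat.succ k) t.1 with
    | true =>
      simp only [ev, hf]
      abel
    | false =>
      cases h2 : Nat.beq k t.1 with
      | false =>
        simp only [ev, ih]
        abel
      | true =>
        have h3 : k = t.1 := Nat.eq_of_beq_eq_true h2
        cases h4 : isz (c + t.2) with
        | true =>
          have h5 := isz_eq h4
          simp only [ev, hf]
          rw [h3]
          have h6 : c • V t.1 + t.2 • V t.1 = 0 := by rw [← add_smul, h5, zero_smul]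
          have h7 : c • V t.1 + ev V l + (t.2 • V t.1 + ev V m) =
              (c • V t.1 + t.2 • V t.1) + (ev V l + ev V m) := by abel
          rw [h7, h6, zero_add]
        | false =>
          simp only [ev, hf]
          rw [h3, add_smul]
          abel

theorem ev_merge (V : ℕ → S) (a : Cb) : ∀ b, ev V (merge a b) = ev V a + ev V b := by
  induction a with
  | nil => intro b; simp [merge, ev]
  | cons t l ih =>
    intro b
    have e : merge (t :: l) b = mgo t.1 t.2 l (merge l) b := rfl
    rw [e, ev_mgo V t.1 t.2 l (merge l) ih]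
    simp only [ev]

theorem ev_scl (V : ℕ → S) (q : ℤ) (a : Cb) : ev V (scl q a) = q • ev V a := by
  induction a with
  | nil => simp [scl, ev]
  | cons t l ih =>
    have e : scl q (t :: l) = (t.1, q * t.2) :: scl q l := rfl
    rw [e]
    simp only [ev]
    rw [ih, smul_add, mul_smul]

theorem ev_allz (V : ℕ → S) (a : Cb) (h : allz a = true) : ev V a = 0 := by
  induction a with
  | nil => rfl
  | cons t l ih =>
    have e : allz (t :: l) = Bool.rec (motive := fun _ => Bool) false (allz l) (isz t.2) := rfl
    rw [e] at h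
    cases h1 : isz t.2 with
    | false => rw [h1] at h; cases h
    | true =>
      rw [h1] at h
      simp only [ev]
      rw [isz_eq h1, zero_smul, ih h, zero_add]

theorem ob_some {α β : Type} {x : Option α} {f : α → Option β} {r : β} (h : ob x f = some r) :
    ∃ a, x = some a ∧ f a = some r := by
  cases x with
  | none => cases h
  | some a => exact ⟨a, rfl, h⟩

theorem linR_sound (V V' : ℕ → S) (B : S →+ S) (N : ℤ) (f : ℕ → Option Cb)
    (hf : ∀ j r, f j = some r → N • B (V j) = ev V' r) (c : ℤ) (b : Cb) :
    ∀ r, linR f c b = some r → (N * c) • B (ev V b) = ev V' r := by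
  induction b with
  | nil =>
    intro r h
    have h1 : some [] = some r := h
    cases h1
    simp [ev]
  | cons t l ih =>
    intro r h
    have e : linR f c (t :: l) = ob (f t.1) fun r => ob (linR f c l) fun s =>
      some (merge (scl (c * t.2) r) s) := rfl
    rw [e] at h
    obtain ⟨r1, h1, h⟩ := ob_some h
    obtain ⟨r2, h2, h⟩ := ob_some h
    cases h
    rw [ev_merge, ev_scl, ← ih r2 h2, ← hf _ _ h1]
    simp only [ev]
    rw [map_add, map_zsmul, smul_add, smul_smul, smul_smul]
    congr 2
    ring

theorem bil_sound (V V' : ℕ → S) (B : S →+ S →+ S) (N : ℤ) (f : ℕ → ℕ → Option Cb)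
    (hf : ∀ i j r, f i j = some r → N • B (V i) (V j) = ev V' r) (a b : Cb) :
    ∀ r, bil f a b = some r → N • B (ev V a) (ev V b) = ev V' r := by
  induction a with
  | nil =>
    intro r h
    have h1 : some [] = some r := h
    cases h1
    simp [ev]
  | cons t l ih =>
    intro r h
    have e : bil f (t :: l) b = ob (linR (f t.1) t.2 b) fun r => ob (bil f l b) fun s =>
      some (merge r s) := rfl
    rw [e] at h
    obtain ⟨r1, h1, h⟩ := ob_some h
    obtain ⟨r2, h2, h⟩ := ob_some h
    cases h
    rw [ev_merge, ← ih r2 h2, ← linR_sound V V' (B (V t.1)) N (f t.1) (hf t.1) t.2 b r1 h1]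
    simp only [ev]
    rw [map_add, map_zsmul, AddMonoidHom.add_apply, AddMonoidHom.smul_apply, smul_add, mul_smul]

end

section Tables

variable {S : Type*} [AddCommGroup S] (M : Sem S) (V : ℕ → S)

/-- the normal forms of a table are right -/
def GoodN (T : BT) : Prop := ∀ i j r, i < 1024 → j < 1024 → findN (i * 1024 + j) T = some r →
  (NN : ℤ) • M.com (V i) (V j) = ev V r

/-- the definitions of a table are right -/
def GoodD (T : BT) : Prop := ∀ i j r, i < 1024 → j < 1024 → findD (i * 1024 + j) T = some r →
  (NN : ℤ) • M.com (V i) (V j) = ev V r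

variable {M V}

theorem raw_sound {L : List BT} {D : BT} (hL : ∀ T ∈ L, GoodN M V T) (hD : GoodD M V D)
    {i j : ℕ} (hi : i < 1024) (hj : j < 1024) : ∀ r, raw L D (i * 1024 + j) = some r →
      (NN : ℤ) • M.com (V i) (V j) = ev V r := by
  induction L with
  | nil => exact fun r h => hD i j r hi hj h
  | cons T L ih =>
    intro r h
    have e : raw (T :: L) D (i * 1024 + j) =
      Option.rec (motive := fun _ => Option Cb) (raw L D (i * 1024 + j)) (fun r => some r)
        (findN (i * 1024 + j) T) := rfl
    rw [e] at h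
    cases h1 : findN (i * 1024 + j) T with
    | none =>
      rw [h1] at h
      exact ih (fun T hT => hL T (List.mem_cons_of_mem _ hT)) r h
    | some r1 =>
      rw [h1] at h
      exact hL T List.mem_cons_self i j r hi hj (h1.trans h)

theorem sgb_eq (b : Bool) : sgb b = if b then 1 else -1 := by cases b <;> rfl

theorem look_sound {PM : ℕ} {L : List BT} {D : BT} (hL : ∀ T ∈ L, GoodN M V T)
    (hD : GoodD M V D) (hV : ∀ k, V k ∈ M.H (Nat.testBit PM k))
    (h2 : ∀ x : S, (2 : ℤ) • x = 0 → x = 0) (i j : ℕ) (r : Cb)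
    (h : look PM L D i j = some r) : (NN : ℤ) • M.com (V i) (V j) = ev V r := by
  unfold look at h
  cases hi : Nat.ble (Nat.succ i) 1024 with
  | false => rw [hi] at h; cases h
  | true =>
    rw [hi] at h
    cases hj : Nat.ble (Nat.succ j) 1024 with
    | false => rw [hj] at h; cases h
    | true =>
      rw [hj] at h
      have hi' : i < 1024 := Nat.le_of_ble_eq_true hi
      have hj' : j < 1024 := Nat.le_of_ble_eq_true hj
      cases he : Nat.beq i j with
      | true =>
        rw [he] at h
        have hij : i = j := Nat.eq_of_beq_eq_true he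
        cases hp : Nat.testBit PM i with
        | true =>
          rw [hp] at h
          exact raw_sound hL hD hi' hj' r h
        | false =>
          rw [hp] at h
          have h1 : some [] = some r := h
          cases h1
          subst hij
          have h3 := M.com_swap (hV i) (hV i)
          rw [hp] at h3
          have h4 : M.com (V i) (V i) = 0 := by
            apply h2
            simp only [Bool.and_self, Bool.false_eq_true, if_false] at h3
            linear_combination (norm := module) h3
          rw [h4]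
          simp [ev]
      | false =>
        rw [he] at h
        cases hle : Nat.ble i j with
        | true =>
          rw [hle] at h
          exact raw_sound hL hD hi' hj' r h
        | false =>
          rw [hle] at h
          obtain ⟨r1, h1, h⟩ := ob_some h
          cases h
          rw [ev_scl, ← raw_sound hL hD hj' hi' r1 h1, M.com_swap (hV j) (hV i), sgb_eq,
            smul_comm]

theorem kdiv {i j : ℕ} (h : j < 1024) : (i * 1024 + j) / 1024 = i := by omega

theorem kmod {i j : ℕ} (h : j < 1024) : (i * 1024 + j) % 1024 = j := by omega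

theorem lookJ_sound {PM : ℕ} (hV : ∀ k, V k ∈ M.H (Nat.testBit PM k))
    (h2 : ∀ x : S, (2 : ℤ) • x = 0 → x = 0) (i j : ℕ) (r : Cb)
    (h : lookJ PM i j = some r) :
    (1 : ℤ) • M.jor (V i) (V j) = ev (fun k => M.jor (V (k / 1024)) (V (k % 1024))) r := by
  unfold lookJ at h
  cases hi : Nat.ble (Nat.succ i) 1024 with
  | false => rw [hi] at h; cases h
  | true =>
    rw [hi] at h
    cases hj : Nat.ble (Nat.succ j) 1024 with
    | false => rw [hj] at h; cases h
    | true =>
      rw [hj] at h
      have hi' : i < 1024 := Nat.le_of_ble_eq_true hi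
      have hj' : j < 1024 := Nat.le_of_ble_eq_true hj
      have e1 := kdiv (i := i) hj'
      have e2 := kmod (i := i) hj'
      have e3 := kdiv (i := j) hi'
      have e4 := kmod (i := j) hi'
      cases he : Nat.beq i j with
      | true =>
        rw [he] at h
        have hij : i = j := Nat.eq_of_beq_eq_true he
        cases hp : Nat.testBit PM i with
        | false =>
          rw [hp] at h
          have h1 : some [(i * 1024 + j, (1 : ℤ))] = some r := h
          cases h1
          simp only [ev]
          rw [e1, e2, add_zero]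
        | true =>
          rw [hp] at h
          have h1 : some [] = some r := h
          cases h1
          subst hij
          have h3 := M.jor_swap (hV i) (hV i)
          rw [hp] at h3
          have h4 : M.jor (V i) (V i) = 0 := by
            apply h2
            simp only [Bool.and_self, if_true] at h3
            linear_combination (norm := module) h3
          rw [h4]
          simp [ev]
      | false =>
        rw [he] at h
        cases hle : Nat.ble i j with
        | true =>
          rw [hle] at h
          have h1 : some [(i * 1024 + j, (1 : ℤ))] = some r := h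
          cases h1
          simp only [ev]
          rw [e1, e2, add_zero]
        | false =>
          rw [hle] at h
          have h1 : some [(j * 1024 + i, - sgb (Nat.testBit PM j && Nat.testBit PM i))] =
            some r := h
          cases h1
          simp only [ev]
          rw [e3, e4, add_zero, M.jor_swap (hV j) (hV i), sgb_eq, one_smul]
          cases (Nat.testBit PM j && Nat.testBit PM i) <;> simp

theorem pT_mem (p : ℕ → Bool) (x : ℕ → S) (hx : ∀ i, x i ∈ M.H (p i)) (t : Tr) :
    M.evT x t ∈ M.H (pT p t) := by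
  induction t with
  | l i => exact hx i
  | c s t hs ht => exact M.com_mem hs ht
  | a s t u hs ht hu => exact M.ass_mem hs ht hu

theorem jacE_sound {lk : ℕ → ℕ → Option Cb}
    (hlk : ∀ i j r, lk i j = some r → (NN : ℤ) • M.com (V i) (V j) = ev V r)
    (hJ : M.SValid sJac) {q1 q2 q3 : Bool} {A B C : S} (hA : A ∈ M.H q1) (hB : B ∈ M.H q2)
    (hC : C ∈ M.H q3) {a b c : Cb} {x y z : ℤ} (ha : x • A = ev V a) (hb : y • B = ev V b)
    (hc : z • C = ev V c) {r : Cb} (h : jacE lk q1 q2 q3 a b c = some r) :
    (6 * NN * NN * (x * (y * z)) : ℤ) • M.ass A B C = ev V r := by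
  unfold jacE at h
  obtain ⟨ab, h1, h⟩ := ob_some h
  obtain ⟨r1, h2, h⟩ := ob_some h
  obtain ⟨bc, h3, h⟩ := ob_some h
  obtain ⟨r2, h4, h⟩ := ob_some h
  obtain ⟨ca, h5, h⟩ := ob_some h
  obtain ⟨r3, h6, h⟩ := ob_some h
  cases h
  have k1 := bil_sound V V M.com NN lk hlk _ _ _ h1
  have k2 := bil_sound V V M.com NN lk hlk _ _ _ h2
  have k3 := bil_sound V V M.com NN lk hlk _ _ _ h3
  have k4 := bil_sound V V M.com NN lk hlk _ _ _ h4
  have k5 := bil_sound V V M.com NN lk hlk _ _ _ h5
  have k6 := bil_sound V V M.com NN lk hlk _ _ _ h6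
  rw [← ha, ← hb] at k1
  rw [← k1, ← hc] at k2
  rw [← hb, ← hc] at k3
  rw [← k3, ← ha] at k4
  rw [← hc, ← ha] at k5
  rw [← k5, ← hb] at k6
  rw [ev_merge, ev_merge, ev_scl, ev_scl, ← k2, ← k4, ← k6]
  simp only [map_zsmul, AddMonoidHom.smul_apply]
  have hs := hJ (p3 q1 q2 q3) (fun i => if i = 0 then A else if i = 1 then B else if i = 2 then C
    else 0) (by
    intro i
    rcases i with _ | _ | _ | i
    · exact hA
    · exact hB
    · exact hC
    · rw [if_neg (by omega), if_neg (by omega), if_neg (by omega)]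
      exact AddSubgroup.zero_mem _)
  simp only [Sem.evS, sJac, Sem.evR, Sem.evT, RT.leaves, Tr.leaves, List.cons_append,
    List.nil_append, if_true, one_ne_zero, if_false, OfNat.ofNat_ne_zero, OfNat.ofNat_ne_one] at hs
  have k0 : kos (p3 q1 q2 q3) [0, 1, 2] = 1 := by
    simp [kos, srt, ins]
  rw [k0] at hs
  generalize kos (p3 q1 q2 q3) [1, 2, 0] = s1 at *
  generalize kos (p3 q1 q2 q3) [2, 0, 1] = s2 at *
  linear_combination (norm := module) (-(NN : ℤ) * NN * (x * (y * z))) • hs

theorem scT_a (s t u : Tr) : scT (.a s t u) = 6 * NN * NN * (scT s * (scT t * scT u)) := rfl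

theorem scT_c (s t : Tr) : scT (.c s t) = NN * (scT s * scT t) := rfl

theorem evN_sound {lk : ℕ → ℕ → Option Cb}
    (hlk : ∀ i j r, lk i j = some r → (NN : ℤ) • M.com (V i) (V j) = ev V r)
    (hJ : M.SValid sJac) {p : ℕ → Bool} {x : ℕ → S} {args : ℕ → ℕ}
    (hx : ∀ i, x i = V (args i)) (hp : ∀ i, x i ∈ M.H (p i)) (t : Tr) :
    ∀ r, evN lk p args t = some r → (scT t : ℤ) • M.evT x t = ev V r := by
  induction t with
  | l i =>
    intro r h
    have h1 : some [(args i, (1 : ℤ))] = some r := h
    cases h1
    have e : (scT (.l i) : ℤ) = 1 := rfl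
    rw [e]
    simp only [ev, Sem.evT]
    rw [add_zero, hx]
  | c s t hs ht =>
    intro r h
    have e : evN lk p args (.c s t) = ob (evN lk p args s) fun a =>
      skip a (ob (evN lk p args t) fun b => bil lk a b) := rfl
    rw [e] at h
    obtain ⟨a, h1, h⟩ := ob_some h
    have k1 := hs a h1
    cases a with
    | nil =>
      have h2 : some [] = some r := h
      cases h2
      simp only [ev] at k1
      rw [scT_c]
      simp only [ev, Sem.evT]
      have h3 : ((NN * (scT s * scT t) : ℕ) : ℤ) • M.com (M.evT x s) (M.evT x t) =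
          ((NN : ℤ) * scT t) • M.com ((scT s : ℤ) • M.evT x s) (M.evT x t) := by
        rw [map_zsmul, AddMonoidHom.smul_apply, smul_smul]
        congr 1
        push_cast
        ring
      rw [h3, k1, map_zero, AddMonoidHom.zero_apply, smul_zero]
    | cons a0 a1 =>
      have h2 : (ob (evN lk p args t) fun b => bil lk (a0 :: a1) b) = some r := h
      obtain ⟨b, h3, h⟩ := ob_some h2
      have k2 := ht b h3
      have k3 := bil_sound V V M.com NN lk hlk _ _ _ h
      rw [← k3, ← k1, ← k2, scT_c]
      simp only [Sem.evT]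
      rw [map_zsmul, map_zsmul, AddMonoidHom.smul_apply, smul_smul, smul_smul]
      congr 1
      push_cast
      ring
  | a s t u hs ht hu =>
    intro r h
    have e : evN lk p args (.a s t u) = ob (evN lk p args s) fun a =>
      ob (evN lk p args t) fun b => ob (evN lk p args u) fun c =>
        jacE lk (pT p s) (pT p t) (pT p u) a b c := rfl
    rw [e] at h
    obtain ⟨a, h1, h⟩ := ob_some h
    obtain ⟨b, h2, h⟩ := ob_some h
    obtain ⟨c, h3, h⟩ := ob_some h
    have k := jacE_sound hlk hJ (pT_mem p x hp s) (pT_mem p x hp t) (pT_mem p x hp u)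
      (hs a h1) (ht b h2) (hu c h3) h
    rw [← k, scT_a]
    simp only [Sem.evT]
    congr 1

theorem evA_sound {lk : ℕ → ℕ → Option Cb}
    (hlk : ∀ i j r, lk i j = some r → (NN : ℤ) • M.com (V i) (V j) = ev V r)
    (hJ : M.SValid sJac) {p : ℕ → Bool} {x : ℕ → S} {args : ℕ → ℕ}
    (hx : ∀ i, x i = V (args i)) (hp : ∀ i, x i ∈ M.H (p i)) (t : RT) (r : Cb)
    (h : evA lk p args t = some r) : (scR t : ℤ) • M.evR x t = ev V r := by
  cases t with
  | c s t => exact evN_sound hlk hJ hx hp (.c s t) r h
  | a s t u => exact evN_sound hlk hJ hx hp (.a s t u) r h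
  | j s t => cases h

/-- values of Jordan products -/
def VJ (M : Sem S) (V : ℕ → S) : ℕ → S := fun k => M.jor (V (k / 1024)) (V (k % 1024))

theorem evJ_sound {lk : ℕ → ℕ → Option Cb}
    (hlk : ∀ i j r, lk i j = some r → (NN : ℤ) • M.com (V i) (V j) = ev V r)
    (hJ : M.SValid sJac) {PM : ℕ} (hV : ∀ k, V k ∈ M.H (Nat.testBit PM k))
    (h2 : ∀ x : S, (2 : ℤ) • x = 0 → x = 0) {p : ℕ → Bool} {x : ℕ → S} {args : ℕ → ℕ}
    (hx : ∀ i, x i = V (args i)) (hp : ∀ i, x i ∈ M.H (p i)) (t : RT) (r : Cb)
    (h : evJ PM lk p args t = some r) : (scR t : ℤ) • M.evR x t = ev (VJ M V) r := by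
  cases t with
  | c s t => cases h
  | a s t u => cases h
  | j s t =>
    have e : evJ PM lk p args (.j s t) = ob (evN lk p args s) fun a =>
      skip a (ob (evN lk p args t) fun b => bil (lookJ PM) a b) := rfl
    rw [e] at h
    obtain ⟨a, h1, h⟩ := ob_some h
    have k1 := evN_sound hlk hJ hx hp s a h1
    have es : scR (.j s t) = scT s * scT t := rfl
    rw [es]
    cases a with
    | nil =>
      have h2 : some [] = some r := h
      cases h2
      simp only [ev] at k1
      simp only [ev, Sem.evR]
      have h3 : ((scT s * scT t : ℕ) : ℤ) • M.jor (M.evT x s) (M.evT x t) =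
          (scT t : ℤ) • M.jor ((scT s : ℤ) • M.evT x s) (M.evT x t) := by
        rw [map_zsmul, AddMonoidHom.smul_apply, smul_smul]
        congr 1
        push_cast
        ring
      rw [h3, k1, map_zero, AddMonoidHom.zero_apply, smul_zero]
    | cons a0 a1 =>
      have h2' : (ob (evN lk p args t) fun b => bil (lookJ PM) (a0 :: a1) b) = some r := h
      obtain ⟨b, h3, h⟩ := ob_some h2'
      have k2 := evN_sound hlk hJ hx hp t b h3
      have k3 := bil_sound V (VJ M V) M.jor 1 (lookJ PM) (lookJ_sound hV h2) _ _ _ h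
      rw [← k3, ← k1, ← k2]
      simp only [Sem.evR]
      rw [map_zsmul, map_zsmul, AddMonoidHom.smul_apply, smul_smul, smul_smul]
      congr 1
      push_cast
      ring

theorem evSc_sound {V' : ℕ → S} {f : RT → Option Cb} {p : ℕ → Bool} {x : ℕ → S} {Q : ℕ}
    (hf : ∀ t r, f t = some r → (scR t : ℤ) • M.evR x t = ev V' r) (s : List (ℤ × RT)) :
    ∀ r, evSc f Q p s = some r → (Q : ℤ) • M.evS p x s = ev V' r := by
  induction s with
  | nil =>
    intro r h
    have h1 : some [] = some r := h
    cases h1
    simp [ev, Sem.evS]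
  | cons t s ih =>
    intro r h
    have e : evSc f Q p (t :: s) = Bool.rec (motive := fun _ => Option Cb) none
      (ob (f t.2) fun a => ob (evSc f Q p s) fun b =>
        some (merge (scl (t.1 * kos p t.2.leaves) a) b)) (Nat.beq (scR t.2) Q) := rfl
    rw [e] at h
    cases hb : Nat.beq (scR t.2) Q with
    | false => rw [hb] at h; cases h
    | true =>
      rw [hb] at h
      have hq : scR t.2 = Q := Nat.eq_of_beq_eq_true hb
      obtain ⟨a, h1, h⟩ := ob_some h
      obtain ⟨b, h2, h⟩ := ob_some h
      cases h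
      rw [ev_merge, ev_scl, ← hf _ _ h1, ← ih b h2, hq]
      simp only [Sem.evS]
      rw [smul_add, smul_comm (Q : ℤ)]

theorem ev_comb (V : ℕ → S) (cs : List ℤ) : ∀ is : List Cb, (∀ i ∈ is, ev V i = 0) →
    ev V (comb cs is) = 0 := by
  induction cs with
  | nil => intro is _; rfl
  | cons c cs ih =>
    intro is h
    cases is with
    | nil => rfl
    | cons i is =>
      have e : comb (c :: cs) (i :: is) = Bool.rec (motive := fun _ => Cb)
        (merge (scl c i) (comb cs is)) (comb cs is) (isz c) := rfl
      have ih' := ih is fun j hj => h j (List.mem_cons_of_mem _ hj)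
      rw [e]
      cases isz c with
      | true => exact ih'
      | false =>
        show ev V (merge (scl c i) (comb cs is)) = 0
        rw [ev_merge, ev_scl, ih', h i List.mem_cons_self, smul_zero, zero_add]

omit [AddCommGroup S] in
theorem pA_eq (PM : ℕ) (l : List ℕ) (i : ℕ) : pA PM l i = Nat.testBit PM (getA l i) := rfl

/-- the hypotheses of the engine -/
structure Hyp (M : Sem S) (PM : ℕ) (V : ℕ → S) : Prop where
  mem : ∀ k, V k ∈ M.H (Nat.testBit PM k)
  tf2 : ∀ x : S, (2 : ℤ) • x = 0 → x = 0
  tf3 : ∀ x : S, (3 : ℤ) • x = 0 → x = 0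
  jac : M.SValid sJac
  r4 : M.SValid sR4

theorem inst4_sound {PM : ℕ} (H : Hyp M PM V) {L : List BT} {D : BT}
    (hL : ∀ T ∈ L, GoodN M V T) (hD : GoodD M V D) (l : List ℕ) (r : Cb)
    (h : inst4 PM L D l = some r) : ev V r = 0 := by
  have hp : ∀ i, V (getA l i) ∈ M.H (pA PM l i) := fun i => H.mem _
  have k := evSc_sound (M := M) (V' := V) (x := fun i => V (getA l i))
    (evA_sound (look_sound hL hD H.mem H.tf2) H.jac (fun i => rfl) hp) sR4 r h
  rw [← k, H.r4 _ _ hp, smul_zero]

theorem insts_sound {PM : ℕ} (H : Hyp M PM V) {L : List BT} {D : BT}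
    (hL : ∀ T ∈ L, GoodN M V T) (hD : GoodD M V D) (ll : List (List ℕ)) :
    ∀ is, insts PM L D ll = some is → ∀ i ∈ is, ev V i = 0 := by
  induction ll with
  | nil =>
    intro is h
    have h1 : some [] = some is := h
    cases h1
    simp
  | cons l ll ih =>
    intro is h
    have e : insts PM L D (l :: ll) = ob (inst4 PM L D l) fun a => ob (insts PM L D ll) fun b =>
      some (a :: b) := rfl
    rw [e] at h
    obtain ⟨a, h1, h⟩ := ob_some h
    obtain ⟨b, h2, h⟩ := ob_some h
    cases h
    intro i hi
    rcases List.mem_cons.1 hi with h | h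
    · rw [h]; exact inst4_sound H hL hD l a h1
    · exact ih b h2 i h

theorem six_pow (h2 : ∀ x : S, (2 : ℤ) • x = 0 → x = 0) (h3 : ∀ x : S, (3 : ℤ) • x = 0 → x = 0)
    (n : ℕ) : ∀ x : S, ((6 : ℤ) ^ n) • x = 0 → x = 0 := by
  induction n with
  | zero => intro x h; simpa using h
  | succ n ih =>
    intro x h
    apply h3
    apply h2
    apply ih
    rw [← h, pow_succ]
    module

theorem smo_sound (h2 : ∀ x : S, (2 : ℤ) • x = 0 → x = 0) (h3 : ∀ x : S, (3 : ℤ) • x = 0 → x = 0)
    {e : ℕ} (he : smo e = true) (x : S) (hx : (e : ℤ) • x = 0) : x = 0 := by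
  have h1 : 6 ^ 60 % e = 0 := Nat.eq_of_beq_eq_true he
  obtain ⟨k, hk⟩ := Nat.dvd_of_mod_eq_zero h1
  apply six_pow h2 h3 60
  have : ((6 : ℤ) ^ 60) = (k : ℤ) * (e : ℤ) := by
    have h4 : ((6 : ℤ) ^ 60) = ((6 ^ 60 : ℕ) : ℤ) := by norm_num
    rw [h4, hk]
    push_cast
    ring
  rw [this, mul_smul, hx, smul_zero]

/-! ### Words -/

/-- the words -/
noncomputable def Vw (M : Sem S) (KK DK : ℕ) (x : ℕ → S) (k : ℕ) : S :=
  if k < 3 then x k
  else if _h : k < KK ∧ fld DK k / 1024 < k ∧ fld DK k % 1024 < k then
    M.com (Vw M KK DK x (fld DK k / 1024)) (Vw M KK DK x (fld DK k % 1024))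
  else 0
termination_by k
decreasing_by
  · exact _h.2.1
  · exact _h.2.2

theorem chkP_sound {DK PM : ℕ} : ∀ n, chkP DK PM n = true → ∀ k, k < n → 3 ≤ k →
    Nat.testBit PM k = xor (Nat.testBit PM (fld DK k / 1024)) (Nat.testBit PM (fld DK k % 1024)) := by
  intro n
  induction n with
  | zero => intro _ k hk; omega
  | succ n ih =>
    intro h k hk h3
    have e : chkP DK PM (n + 1) = (chkP DK PM n && (Nat.ble n 2 ||
      (Nat.testBit PM n == xor (Nat.testBit PM (Nat.div (fld DK n) 1024))
        (Nat.testBit PM (Nat.mod (fld DK n) 1024))))) := rfl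
    rw [e, Bool.and_eq_true] at h
    rcases Nat.lt_succ_iff_lt_or_eq.1 hk with h1 | h1
    · exact ih h.1 k h1 h3
    · subst h1
      rcases (Bool.or_eq_true_iff).1 h.2 with h2 | h2
      · have := Nat.le_of_ble_eq_true h2
        omega
      · exact eq_of_beq h2

theorem Vw_mem (M : Sem S) {KK DK PM : ℕ} {x : ℕ → S} (hc : chkP DK PM KK = true)
    (hx : ∀ k, k < 3 → x k ∈ M.H (Nat.testBit PM k)) (k : ℕ) :
    Vw M KK DK x k ∈ M.H (Nat.testBit PM k) := by
  induction k using Nat.strong_induction_on with
  | _ k ih =>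
    rw [Vw]
    by_cases h : k < 3
    · rw [if_pos h]; exact hx k h
    · rw [if_neg h]
      by_cases h1 : k < KK ∧ fld DK k / 1024 < k ∧ fld DK k % 1024 < k
      · rw [dif_pos h1, chkP_sound KK hc k h1.1 (by omega)]
        exact M.com_mem (ih _ h1.2.1) (ih _ h1.2.2)
      · rw [dif_neg h1]
        exact AddSubgroup.zero_mem _

/-- a row is right -/
theorem row_def {KK DK : ℕ} {x : ℕ → S} {is : List Cb} {key k e : ℕ} {cb : Cb} {cs : List ℤ}
    (h : rowOK KK DK is key k e cb cs = true) :
    Vw M KK DK x k = M.com (Vw M KK DK x (key / 1024)) (Vw M KK DK x (key % 1024)) := by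
  unfold rowOK at h
  simp only [Bool.and_eq_true] at h
  obtain ⟨_, ⟨h1, h2⟩, h3, h4, h5⟩ := h
  have k1 : fld DK k = key := Nat.eq_of_beq_eq_true h1
  have k2 : 3 ≤ k := Nat.le_of_ble_eq_true h2
  have k3 : k < KK := Nat.le_of_ble_eq_true h3
  have k4 : key / 1024 < k := Nat.le_of_ble_eq_true h4
  have k5 : key % 1024 < k := Nat.le_of_ble_eq_true h5
  rw [Vw, if_neg (by omega), k1, dif_pos ⟨k3, k4, k5⟩]

theorem row_nf {KK DK PM : ℕ} {x : ℕ → S} (H : Hyp M PM (Vw M KK DK x)) {is : List Cb}
    (his : ∀ i ∈ is, ev (Vw M KK DK x) i = 0) {key k e : ℕ} {cb : Cb} {cs : List ℤ}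
    (h : rowOK KK DK is key k e cb cs = true) :
    (NN : ℤ) • M.com (Vw M KK DK x (key / 1024)) (Vw M KK DK x (key % 1024)) =
      ev (Vw M KK DK x) cb := by
  rw [← row_def (x := x) h]
  unfold rowOK at h
  simp only [Bool.and_eq_true] at h
  obtain ⟨⟨h1, h2⟩, _⟩ := h
  have k1 := ev_allz (Vw M KK DK x) _ h1
  rw [ev_merge, ev_merge, ev_comb _ _ _ his, zero_add, ev_scl] at k1
  simp only [ev, add_zero] at k1
  have k2 := smo_sound H.tf2 H.tf3 h2 (ev (Vw M KK DK x) cb - (NN : ℤ) • Vw M KK DK x k) (by
    rw [← k1]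
    push_cast
    module)
  exact (sub_eq_zero.1 k2).symm

theorem find_lt {x key : ℕ} (h : Nat.ble (Nat.succ x) key = false)
    (h' : Nat.ble (Nat.succ key) x = false) : key = x := by
  have h1 : ¬ (x + 1 ≤ key) := by
    intro h2
    rw [Nat.ble_eq_true_of_le h2] at h
    cases h
  have h3 : ¬ (key + 1 ≤ x) := by
    intro h2
    rw [Nat.ble_eq_true_of_le h2] at h'
    cases h'
  omega

theorem goodD_of {KK DK : ℕ} {x : ℕ → S} {is : List Cb} (T : BT)
    (h : chkT KK DK is T = true) : GoodD M (Vw M KK DK x) T := by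
  induction T with
  | lf => intro i j r _ _ h; cases h
  | nd l key k e cb cs r ihl ihr =>
    have ee : chkT KK DK is (.nd l key k e cb cs r) =
      ((chkT KK DK is l && chkT KK DK is r) && rowOK KK DK is key k e cb cs) := rfl
    rw [ee] at h
    simp only [Bool.and_eq_true] at h
    obtain ⟨⟨hl, hr⟩, hrow⟩ := h
    intro i j s hi hj hs
    have e2 : findD (i * 1024 + j) (.nd l key k e cb cs r) =
      Bool.rec (motive := fun _ => Option Cb)
        (Bool.rec (motive := fun _ => Option Cb) (some [(k, (NN : ℤ))])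
          (findD (i * 1024 + j) r) (Nat.ble (Nat.succ key) (i * 1024 + j)))
        (findD (i * 1024 + j) l) (Nat.ble (Nat.succ (i * 1024 + j)) key) := rfl
    rw [e2] at hs
    cases c1 : Nat.ble (Nat.succ (i * 1024 + j)) key with
    | true => rw [c1] at hs; exact ihl hl i j s hi hj hs
    | false =>
      rw [c1] at hs
      cases c2 : Nat.ble (Nat.succ key) (i * 1024 + j) with
      | true => rw [c2] at hs; exact ihr hr i j s hi hj hs
      | false =>
        rw [c2] at hs
        have h3 : some [(k, (NN : ℤ))] = some s := hs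
        cases h3
        have h4 := find_lt c1 c2
        have h5 := row_def (M := M) (x := x) hrow
        rw [h4, kdiv hj, kmod hj] at h5
        simp only [ev, add_zero]
        rw [h5]

theorem goodN_of {KK DK PM : ℕ} {x : ℕ → S} (H : Hyp M PM (Vw M KK DK x)) {is : List Cb}
    (his : ∀ i ∈ is, ev (Vw M KK DK x) i = 0) (T : BT)
    (h : chkT KK DK is T = true) : GoodN M (Vw M KK DK x) T := by
  induction T with
  | lf => intro i j r _ _ h; cases h
  | nd l key k e cb cs r ihl ihr =>
    have ee : chkT KK DK is (.nd l key k e cb cs r) =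
      ((chkT KK DK is l && chkT KK DK is r) && rowOK KK DK is key k e cb cs) := rfl
    rw [ee] at h
    simp only [Bool.and_eq_true] at h
    obtain ⟨⟨hl, hr⟩, hrow⟩ := h
    intro i j s hi hj hs
    have e2 : findN (i * 1024 + j) (.nd l key k e cb cs r) =
      Bool.rec (motive := fun _ => Option Cb)
        (Bool.rec (motive := fun _ => Option Cb) (some cb)
          (findN (i * 1024 + j) r) (Nat.ble (Nat.succ key) (i * 1024 + j)))
        (findN (i * 1024 + j) l) (Nat.ble (Nat.succ (i * 1024 + j)) key) := rfl
    rw [e2] at hs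
    cases c1 : Nat.ble (Nat.succ (i * 1024 + j)) key with
    | true => rw [c1] at hs; exact ihl hl i j s hi hj hs
    | false =>
      rw [c1] at hs
      cases c2 : Nat.ble (Nat.succ key) (i * 1024 + j) with
      | true => rw [c2] at hs; exact ihr hr i j s hi hj hs
      | false =>
        rw [c2] at hs
        have h3 : some cb = some s := hs
        cases h3
        have h4 := find_lt c1 c2
        have h5 := row_nf H his hrow
        rw [h4, kdiv hj, kmod hj] at h5
        exact h5

theorem chkB_sound {KK DK PM : ℕ} {x : ℕ → S} (H : Hyp M PM (Vw M KK DK x)) {L : List BT}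
    {D : BT} {ll : List (List ℕ)} (hL : ∀ T ∈ L, GoodN M (Vw M KK DK x) T)
    (h : chkB KK DK PM L D ll = true) : ∀ T ∈ D :: L, GoodN M (Vw M KK DK x) T := by
  unfold chkB at h
  cases hi : insts PM L D ll with
  | none => rw [hi] at h; cases h
  | some is =>
    rw [hi] at h
    have h1 : chkT KK DK is D = true := h
    have hD := goodD_of (M := M) (x := x) D h1
    have his := insts_sound H hL hD ll is hi
    intro T hT
    rcases List.mem_cons.1 hT with h2 | h2
    · rw [h2]; exact goodN_of H his D h1
    · exact hL T h2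

end Tables

end Pool.Agent.H76.EB
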