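import Pool.Agent.H76.EB.Data
import Pool.Agent.H76.EB.Sound
import Pool.Agent.H76.Alt.Eng
import Pool.Agent.H3.Alt.Valid

/-!
# The engine statement for `β`
-/

set_option autoImplicit false
set_option maxRecDepth 100000

namespace Pool.Agent.H76.EB

open H8Alt H8Alt.Super H8Alt.Super.G Dat

theorem b2 : chkB KK DK PM [] T2 ll2 = true := by decide +kernel
theorem b3 : chkB KK DK PM [T2] T3 ll3 = true := by decide +kernel
theorem b4 : chkB KK DK PM [T3, T2] T4 ll4 = true := by decide +kernel
theorem b5 : chkB KK DK PM [T4, T3, T2] T5 ll5 = true := by decide +kernel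
theorem b6 : chkB KK DK PM [T5, T4, T3, T2] T6 ll6 = true := by decide +kernel
theorem bP : chkP DK PM KK = true := by decide +kernel

/-- coefficient, scale, schema, arguments -/
abbrev FT := ℤ × ℕ × List (ℤ × RT) × List ℕ

/-- combination of Jordan instances -/
noncomputable def finC (PM : ℕ) (L : List BT) (l : List FT) : Option Cb :=
  List.rec (motive := fun _ => Option Cb) (some [])
    (fun t _ ih => ob (instJ PM L t.2.1 t.2.2.1 t.2.2.2) fun a => ob ih fun b =>
      some (merge (scl t.1 a) b)) l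

/-- the final check -/
noncomputable def finCk (PM : ℕ) (L : List BT) (l : List FT) (Q : ℕ) (s : List (ℤ × RT))
    (args : List ℕ) : Bool :=
  Option.rec (motive := fun _ => Bool) false (fun b => b)
    (ob (finC PM L l) fun a => ob (instJ PM L Q s args) fun b => some (allz (merge a (scl (-1) b))))

/-- the certificate -/
def fin : List FT := [
  (.negSucc 7077887, 42467328, sKj, [2, 0, 0, 14, 4]),
  (.negSucc 7077887, 42467328, sKj, [2, 0, 0, 33, 1]),
  (.negSucc 7077887, 42467328, sKj, [1, 14, 0, 6, 2]),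
  (.ofNat 12386304, 42467328, sKj, [2, 1, 0, 0, 31]),
  (.ofNat 7077888, 42467328, sKj, [2, 1, 0, 41, 1]),
  (.ofNat 96, 9393093476352, (deOp 5 6 sKj), [2, 1, 4, 0, 0, 1, 0]),
  (.ofNat 1769472, 42467328, sKj, [2, 4, 0, 0, 14]),
  (.ofNat 5308416, 42467328, sKj, [1, 9, 0, 0, 5]),
  (.ofNat 7077888, 42467328, sKj, [2, 1, 0, 42, 1]),
  (.ofNat 36864, 8153726976, (adOp 5 sKj), [1, 0, 1, 13, 0, 2]),
  (.ofNat 7077888, 42467328, sKj, [2, 13, 0, 6, 1]),
  (.negSucc 8847359, 42467328, sKj, [2, 9, 0, 0, 6]),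
  (.ofNat 10616832, 42467328, sKj, [2, 0, 0, 13, 4]),
  (.negSucc 95, 9393093476352, (deOp 5 6 sKj), [2, 1, 1, 0, 0, 4, 0]),
  (.negSucc 7077887, 42467328, sKj, [2, 0, 0, 32, 1])]

theorem bF : finCk PM [T6, T5, T4, T3, T2] fin 1803473947459584 betaT [0, 0, 0, 1, 1, 1, 1, 2] = true := by
  decide +kernel

section

variable {S : Type*} [AddCommGroup S] {M : Sem S} {V : ℕ → S}

theorem instJ_sound {PM : ℕ} (H : Hyp M PM V) {L : List BT} (hL : ∀ T ∈ L, GoodN M V T)
    {Q : ℕ} {s : List (ℤ × RT)} {l : List ℕ} {r : Cb} (h : instJ PM L Q s l = some r) :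
    (Q : ℤ) • M.evS (pA PM l) (fun i => V (getA l i)) s = ev (VJ M V) r := by
  have hD : GoodD M V BT.lf := by
    intro i j r _ _ h
    cases h
  exact evSc_sound (M := M) (V' := VJ M V) (x := fun i => V (getA l i))
    (evJ_sound (look_sound hL hD H.mem H.tf2) H.jac H.mem H.tf2 (fun i => rfl)
      (fun i => H.mem _)) s r h

theorem finC_sound {PM : ℕ} (H : Hyp M PM V) {L : List BT} (hL : ∀ T ∈ L, GoodN M V T)
    (l : List FT) (hl : ∀ t ∈ l, M.SValid t.2.2.1) :
    ∀ r, finC PM L l = some r → ev (VJ M V) r = 0 := by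
  induction l with
  | nil =>
    intro r h
    have h1 : some [] = some r := h
    cases h1
    rfl
  | cons t l ih =>
    intro r h
    have e : finC PM L (t :: l) = ob (instJ PM L t.2.1 t.2.2.1 t.2.2.2) fun a =>
      ob (finC PM L l) fun b => some (merge (scl t.1 a) b) := rfl
    rw [e] at h
    obtain ⟨a, h1, h⟩ := ob_some h
    obtain ⟨b, h2, h⟩ := ob_some h
    cases h
    have h0 : M.evS (pA PM t.2.2.2) (fun i => V (getA t.2.2.2 i)) t.2.2.1 = 0 :=
      hl t List.mem_cons_self _ _ (fun i => H.mem _)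
    rw [ev_merge, ev_scl, ih (fun t ht => hl t (List.mem_cons_of_mem _ ht)) b h2,
      ← instJ_sound H hL h1, h0]
    simp

theorem finCk_sound {PM : ℕ} (H : Hyp M PM V) {L : List BT} (hL : ∀ T ∈ L, GoodN M V T)
    {l : List FT} (hl : ∀ t ∈ l, M.SValid t.2.2.1) {Q : ℕ} {s : List (ℤ × RT)}
    {args : List ℕ} (hQ : smo Q = true) (h : finCk PM L l Q s args = true) :
    M.evS (pA PM args) (fun i => V (getA args i)) s = 0 := by
  unfold finCk at h
  cases h1 : finC PM L l with
  | none => rw [h1] at h; cases h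
  | some a =>
    rw [h1] at h
    cases h2 : instJ PM L Q s args with
    | none => rw [h2] at h; cases h
    | some b =>
      rw [h2] at h
      have h3 : allz (merge a (scl (-1) b)) = true := h
      have h4 := ev_allz (VJ M V) _ h3
      rw [ev_merge, ev_scl, finC_sound H hL l hl a h1, zero_add, ← instJ_sound H hL h2] at h4
      apply smo_sound H.tf2 H.tf3 hQ
      rw [← neg_eq_zero, ← h4, neg_one_smul]

end

theorem getA_words (i : ℕ) : getA [0, 0, 0, 1, 1, 1, 1, 2] i =
    if i < 3 then 0 else if i < 7 then 1 else if i = 7 then 2 else 0 := by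
  rcases i with _ | _ | _ | _ | _ | _ | _ | _ | i
  all_goals rfl

theorem pm0 : Nat.testBit PM 0 = false := by decide +kernel
theorem pm1 : Nat.testBit PM 1 = true := by decide +kernel
theorem pm2 : Nat.testBit PM 2 = false := by decide +kernel

theorem pA_words : pA PM [0, 0, 0, 1, 1, 1, 1, 2] = pB := by
  funext i
  rw [pA_eq, getA_words, pB]
  by_cases h1 : i < 3
  · rw [if_pos h1, pm0]
    simp only [Bool.false_eq, decide_eq_false_iff_not]
    omega
  · rw [if_neg h1]
    by_cases h2 : i < 7
    · rw [if_pos h2, pm1]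
      simp only [Bool.true_eq, decide_eq_true_eq]
      omega
    · rw [if_neg h2]
      by_cases h3 : i = 7
      · rw [if_pos h3, pm2]
        simp only [Bool.false_eq, decide_eq_false_iff_not]
        omega
      · rw [if_neg h3, pm0]
        simp only [Bool.false_eq, decide_eq_false_iff_not]
        omega

/-- The engine for `β` over groups without 2- and 3-torsion. -/
theorem engB_of {S : Type*} [AddCommGroup S] {M : Sem S}
    (tf2 : ∀ x : S, (2 : ℤ) • x = 0 → x = 0) (tf3 : ∀ x : S, (3 : ℤ) • x = 0 → x = 0)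
    (jac : M.SValid sJac) (r4 : M.SValid sR4) (kj : M.SValid sKj) (ka : M.SValid (adOp 5 sKj))
    (kd : M.SValid (deOp 5 6 sKj)) : EngB M := by
  intro x hx h10 h20 h43 h53 h63
  -- the letters
  let g : ℕ → S := fun i => if i = 0 then x 0 else if i = 1 then x 3 else x 7
  have hg : ∀ k, k < 3 → g k ∈ M.H (Nat.testBit PM k) := by
    intro k hk
    rcases k with _ | _ | _ | k
    · rw [pm0]; exact hx 0
    · rw [pm1]; exact hx 3
    · rw [pm2]; exact hx 7
    · omega
  have H : Hyp M PM (Vw M KK DK g) :=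
    { mem := Vw_mem M bP hg
      tf2 := tf2
      tf3 := tf3
      jac := jac
      r4 := r4 }
  have g0 : ∀ T ∈ ([] : List BT), GoodN M (Vw M KK DK g) T := by
    intro T hT
    cases hT
  have g6 := chkB_sound H (chkB_sound H (chkB_sound H (chkB_sound H (chkB_sound H g0 b2) b3) b4)
    b5) b6
  have hl : ∀ t ∈ fin, M.SValid t.2.2.1 := by
    intro t ht
    simp only [fin, List.mem_cons, List.not_mem_nil, or_false] at ht
    rcases ht with h | h | h | h | h | h | h | h | h | h | h | h | h | h | h <;> rw [h] <;>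
      assumption
  have key := finCk_sound H g6 hl (by decide +kernel) bF
  rw [pA_words] at key
  rw [← key]
  have e0 : Vw M KK DK g 0 = x 0 := by rw [Vw]; rfl
  have e1 : Vw M KK DK g 1 = x 3 := by rw [Vw]; rfl
  have e2 : Vw M KK DK g 2 = x 7 := by rw [Vw]; rfl
  apply evS_congr
  intro t ht i hi
  have hi8 : i < 8 := by
    have h2 := (mem_leaves multi_betaT ht i).1 hi
    simp only [List.mem_cons, List.not_mem_nil, or_false] at h2
    omega
  rw [getA_words]
  rcases i with _ | _ | _ | _ | _ | _ | _ | _ | i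
  · exact e0.symm
  · exact h10.trans e0.symm
  · exact h20.trans e0.symm
  · exact e1.symm
  · exact h43.trans e1.symm
  · exact h53.trans e1.symm
  · exact h63.trans e1.symm
  · exact e2.symm
  · omega

open Pool.Agent.H3.Alt in
/-- The engine statement for `β` over alternative rings without 2- and 3-torsion. -/
theorem engB {A : Type*} [NonUnitalNonAssocRing A] [IsAlternative A]
    (h2 : ∀ x : A, (2 : ℤ) • x = 0 → x = 0) (h3 : ∀ x : A, (3 : ℤ) • x = 0 → x = 0) :
    EngB (semA A 4) :=
  engB_of (fn_tf 2 h2) (fn_tf 3 h3)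
    (svalid (sJac_valid A) sJac_multi (by decide))
    (svalid (sR4_valid A) sR4_multi (by decide))
    (svalid (sKj_valid A) sKj_multi (by decide))
    (svalid (sKj_ctx_valid A [(5, none)]) sKj_ad_multi (by decide))
    (svalid (sKj_ctx_valid A [(5, some 6)]) sKj_de_multi (by decide))

/-- `[β(z; a, b, c, d), e] = 0` in alternative rings without 2- and 3-torsion. -/
theorem bt_comm {A : Type*} [NonUnitalNonAssocRing A] [IsAlternative A]
    (h2 : ∀ x : A, (2 : ℤ) • x = 0 → x = 0) (h3 : ∀ x : A, (3 : ℤ) • x = 0 → x = 0)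
    (z a b c d e : A) : cm (bt z a b c d) e = 0 :=
  bt_of_eng h2 h3 (engB h2 h3) z a b c d e

end Pool.Agent.H76.EB
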